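import Pool.Agent.H8.TD.Rec1
import Pool.Agent.H8.TD.Line
import Pool.Agent.H10.TD.LDG
import Pool.Agent.H10.TD.LNX
import Pool.Agent.H11.TD.LOW
import Pool.Agent.H13.TD.CLR
import Pool.Agent.H14.TD.EXT
import Pool.Agent.H14.TD.INS
import Pool.Agent.H19.TD.CLZ
import Pool.Agent.H19.TD.LEN
import Pool.Agent.H19.TD.SSP
import Pool.Agent.H2.TD.WBX
import Pool.Agent.H35.TD.SRB
import Pool.Agent.H36.TD.TAU
import Pool.Agent.H38.TD.RL1
import Pool.Agent.H39.TD.RED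
import Pool.Agent.H4.TD.NRF
import Pool.Agent.H41.TD.BZ1
import Pool.Agent.H42.TD.HRL
import Pool.Agent.H42.TD.UPE
import Pool.Agent.H50.TD.HMG
import Pool.Agent.H50.TD.LAV
import Pool.Agent.H50.TD.PRC
import Pool.Agent.H51.TD.CTD
import Pool.Agent.H52.TD.DLB
import Pool.Agent.H52.TD.PBK
import Pool.Agent.H54.TD.PDG
import Pool.Agent.H55.TD.AXF
import Pool.Agent.H60.TD.RFD
import Pool.Agent.H60.TD.SL1
import Pool.Agent.H63.TD.NVE
import Pool.Agent.H64.TD.KIN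
import Pool.Agent.H72.TD.DGB
import Pool.Agent.H74.TD.RL2
import Pool.Agent.H77.TD.GNX
import Pool.Agent.H77.TD.RL0
import Pool.Agent.H91.TD.GR3
import Pool.Agent.H91.TD.NUM
import Pool.Agent.H98.TD.ADJ

/-!
# Zariski dense orbits in dimension three: all the rows together
-/

open MvPolynomial
open Pool.Agent.H12.ZD (pmap v O Res DenseOrbit NoInv)
open Pool.Agent.H18.HIT

namespace Pool.Agent.H8.TD.Al

theorem adj : T_ADJ := Pool.Agent.H98.TD.pf_ADJ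
theorem axf : T_AXF := Pool.Agent.H55.TD.pf_AXF
theorem bz1 : T_BZ1 := Pool.Agent.H41.TD.pf_BZ1
theorem nrf : T_NRF := Pool.Agent.H4.TD.pf_NRF
theorem nve : T_NVE := Pool.Agent.H63.TD.pf_NVE
theorem ssp : T_SSP := Pool.Agent.H19.TD.pf_SSP
theorem len : T_LEN := Pool.Agent.H19.TD.pf_LEN
theorem clz : T_CLZ := Pool.Agent.H19.TD.pf_CLZ nrf nve ssp len
theorem low : T_LOW := Pool.Agent.H11.TD.pf_LOW
theorem clr : T_CLR := Pool.Agent.H13.TD.pf_CLR clz low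
theorem ctd : T_CTD := Pool.Agent.H51.TD.pf_CTD
theorem sl1 : T_SL1 := Pool.Agent.H60.TD.pf_SL1
theorem dgb : T_DGB := Pool.Agent.H72.TD.pf_DGB sl1
theorem dlb : T_DLB := Pool.Agent.H52.TD.pf_DLB
theorem ext : T_EXT := Pool.Agent.H14.TD.pf_EXT
theorem gnx : T_GNX := Pool.Agent.H77.TD.pf_GNX
theorem gr3 : T_GR3 := Pool.Agent.H91.TD.pf_GR3
theorem hmg : T_HMG := Pool.Agent.H50.TD.pf_HMG
theorem hrl : T_HRL := Pool.Agent.H42.TD.pf_HRL
theorem pdg : T_PDG := Pool.Agent.H54.TD.pf_PDG clz low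
theorem ins : T_INS := Pool.Agent.H14.TD.pf_INS pdg adj
theorem srb : T_SRB := Pool.Agent.H35.TD.pf_SRB clz low clr adj
theorem num : T_NUM := Pool.Agent.H91.TD.pf_NUM
theorem wbx : T_WBX := Pool.Agent.H2.TD.pf_WBX
theorem kin : T_KIN := Pool.Agent.H64.TD.pf_KIN srb dlb axf num gnx wbx
theorem lav : T_LAV := Pool.Agent.H50.TD.pf_LAV ctd
theorem rfd : T_RFD := Pool.Agent.H60.TD.pf_RFD
theorem ldg : T_LDG := Pool.Agent.H10.TD.pf_LDG rfd adj
theorem lnx : T_LNX := Pool.Agent.H10.TD.pf_LNX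
theorem pbk : T_PBK := Pool.Agent.H52.TD.pf_PBK
theorem prc : T_PRC := Pool.Agent.H50.TD.pf_PRC
theorem red : T_RED := Pool.Agent.H39.TD.pf_RED
theorem rl0 : T_RL0 := Pool.Agent.H77.TD.pf_RL0
theorem rl1 : T_RL1 := Pool.Agent.H38.TD.pf_RL1 sl1 rl0 ctd
theorem rl2 : T_RL2 := Pool.Agent.H74.TD.pf_RL2
theorem tau : T_TAU := Pool.Agent.H36.TD.pf_TAU
theorem upe : T_UPE := Pool.Agent.H42.TD.pf_UPE Pool.Agent.H18.HIT.All.cve Pool.Agent.H18.HIT.All.elm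

end Pool.Agent.H8.TD.Al
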