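import Pool.Agent.H8.TD.All

/-!
# Zariski dense orbits in dimension three: lines, numbers
-/

set_option autoImplicit false

open MvPolynomial
open Pool.Agent.H18.HIT
open Pool.Agent.H12.ZD (pmap)
open Pool.Agent.H8.ZA (HFam Const NA sz)

namespace Pool.Agent.H8.TD

/-- the restriction to a line -/
noncomputable def ln (x v : Fin 4 → Qb) : Po 4 Qb →ₐ[Qb] Polynomial Qb :=
  aeval fun i => Polynomial.C (x i) + Polynomial.C (v i) * Polynomial.X

theorem eval_ln (x v : Fin 4 → Qb) (t : Qb) (q : Po 4 Qb) :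
    (ln x v q).eval t = eval (fun i => x i + t * v i) q := by
  have h : ((Polynomial.evalRingHom t).comp (ln x v).toRingHom) =
      eval (fun i => x i + t * v i) := by
    apply MvPolynomial.ringHom_ext
    · intro r
      simp [ln, Polynomial.algebraMap_eq]
    · intro i
      change ((aeval fun i => Polynomial.C (x i) + Polynomial.C (v i) * Polynomial.X : Po 4 Qb →ₐ[Qb]
        Polynomial Qb) (X i)).eval t = eval (fun i => x i + t * v i) (X i)
      rw [aeval_X, eval_X, Polynomial.eval_add, Polynomial.eval_mul, Polynomial.eval_C,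
        Polynomial.eval_C, Polynomial.eval_X, mul_comm t]
  exact DFunLike.congr_fun h q

theorem prod_coeff (s : Finset (Fin 4)) (f : Fin 4 → Polynomial Qb) (n : Fin 4 → ℕ)
    (hf : ∀ i, (f i).natDegree ≤ n i) : (∏ i ∈ s, f i).natDegree ≤ ∑ i ∈ s, n i ∧
      (∏ i ∈ s, f i).coeff (∑ i ∈ s, n i) = ∏ i ∈ s, (f i).coeff (n i) := by
  classical
  induction s using Finset.induction_on with
  | empty =>
    rw [Finset.prod_empty, Finset.sum_empty, Finset.prod_empty]
    exact ⟨Polynomial.natDegree_one.le, Polynomial.coeff_one_zero⟩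
  | insert i s hi ih =>
    rw [Finset.prod_insert hi, Finset.sum_insert hi, Finset.prod_insert hi]
    refine ⟨Polynomial.natDegree_mul_le.trans (add_le_add (hf i) ih.1), ?_⟩
    rw [Polynomial.coeff_mul_add_eq_of_natDegree_le (hf i) ih.1, ih.2]

theorem ln_coeff {q : Po 4 Qb} {D : ℕ} (hq : q.IsHomogeneous D) (x v : Fin 4 → Qb) :
    (ln x v q).natDegree ≤ D ∧ (ln x v q).coeff D = eval v q := by
  have h1 : ln x v q = ∑ m ∈ q.support, Polynomial.C (coeff m q) *
      ∏ i, (Polynomial.C (x i) + Polynomial.C (v i) * Polynomial.X) ^ m i := by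
    rw [ln, aeval_def, eval₂_eq']
    rfl
  have hf : ∀ (m : Fin 4 →₀ ℕ) (i : Fin 4),
      ((Polynomial.C (x i) + Polynomial.C (v i) * Polynomial.X) ^ m i).natDegree ≤ m i := by
    intro m i
    refine Polynomial.natDegree_pow_le.trans ?_
    refine (Nat.mul_le_mul_left _ (?_ : _ ≤ 1)).trans (Nat.mul_one _).le
    rw [add_comm]
    exact Polynomial.natDegree_linear_le
  have hc : ∀ (m : Fin 4 →₀ ℕ) (i : Fin 4),
      ((Polynomial.C (x i) + Polynomial.C (v i) * Polynomial.X) ^ m i).coeff (m i) =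
        v i ^ m i := by
    intro m i
    have h2 : (Polynomial.C (x i) + Polynomial.C (v i) * Polynomial.X).natDegree ≤ 1 := by
      rw [add_comm]
      exact Polynomial.natDegree_linear_le
    have h3 := Polynomial.coeff_pow_of_natDegree_le (m := m i) h2
    rw [Nat.mul_one] at h3
    rw [h3, Polynomial.coeff_add, Polynomial.coeff_C_mul, Polynomial.coeff_X_one, mul_one,
      Polynomial.coeff_C_of_ne_zero one_ne_zero, zero_add]
  have hD : ∀ m ∈ q.support, ∑ i, m i = D := by
    intro m hm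
    have h2 : m.degree = D := by
      by_contra hcon
      exact (mem_support_iff.mp hm) (hq.coeff_eq_zero hcon)
    rw [Finsupp.degree_eq_sum] at h2
    exact h2
  constructor
  · rw [h1]
    apply Polynomial.natDegree_sum_le_of_forall_le
    intro m hm
    refine (Polynomial.natDegree_C_mul_le _ _).trans ?_
    rw [← hD m hm]
    exact (prod_coeff Finset.univ _ m (hf m)).1
  · rw [h1, Polynomial.finsetSum_coeff, eval_eq']
    apply Finset.sum_congr rfl
    intro m hm
    rw [Polynomial.coeff_C_mul, ← hD m hm, (prod_coeff Finset.univ _ m (hf m)).2]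
    congr 1
    exact Finset.prod_congr rfl fun i _ => hc m i

/-- the heights at the points of a line -/
theorem ht_line (q : Tup 4 Qb) (D : ℕ) (hq : ∀ i, (q i).IsHomogeneous D) (x v : Fin 4 → Qb)
    (hv : eval v (q 0) ≠ 0) (hz : ∀ t : Qb, ∃ i, eval (fun j => x j + t * v j) (q i) ≠ 0)
    (K : IntermediateField ℚ Qb) (F : HFam K) (hK : ∀ j, (ln x v (q 0)).coeff j ∈ K) :
    ∃ c : ℝ, ∀ t : ℤ, t ≠ 0 → eval (fun j => x j + (t : Qb) * v j) (q 0) ≠ 0 →
      |F.ht (aff (pmap q (fun j => x j + (t : Qb) * v j))) -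
        D * (F.arch.card * Real.log |(t : ℝ)|)| ≤ c := by
  have h0 : (ln x v (q 0)).coeff D ≠ 0 := by
    rw [(ln_coeff (hq 0) x v).2]
    exact hv
  obtain ⟨c, hc⟩ := Al.lnx (fun i => ln x v (q i)) D (fun i => (ln_coeff (hq i) x v).1) ⟨0, h0⟩
    (fun t => by
      obtain ⟨i, hi⟩ := hz t
      refine ⟨i, ?_⟩
      rw [eval_ln]
      exact hi) (fun h1 => h0 (by
        rw [h1, Polynomial.coeff_zero])) K F hK
  refine ⟨c, fun t ht hqt => ?_⟩
  have h1 := hc t ht (by rw [eval_ln]; exact hqt)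
  have h2 : (fun i : Fin 3 => (ln x v (q i.succ)).eval (t : Qb) / (ln x v (q 0)).eval (t : Qb)) =
      aff (pmap q (fun j => x j + (t : Qb) * v j)) := by
    funext i
    rw [eval_ln, eval_ln]
    rfl
  rw [h2] at h1
  exact h1

/-! ## Numbers -/

/-- exponential growth from the recursion -/
theorem grow (h : ℕ → ℝ) {κ β c₀ : ℝ} (hκ : 2 < κ) (hβ : 0 ≤ β) (hβκ : 8 * β ≤ κ ^ 2)
    (hrec : ∀ j, κ * h (j + 1) ≤ h (j + 2) + β * h j + c₀) (h0 : 0 < h 0)
    (h0' : 2 * |c₀| ≤ h 0) (h1 : κ / 2 * h 0 ≤ h 1) :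
    ∀ j, h 0 ≤ h j ∧ κ / 2 * h j ≤ h (j + 1) := by
  intro j
  induction j with
  | zero => exact ⟨le_rfl, h1⟩
  | succ j ih =>
    obtain ⟨ih1, ih2⟩ := ih
    have hj : 0 < h j := lt_of_lt_of_le h0 ih1
    have h2 : h j ≤ h (j + 1) := by
      refine le_trans ?_ ih2
      have : 1 * h j ≤ κ / 2 * h j := mul_le_mul_of_nonneg_right (by linarith) hj.le
      linarith
    refine ⟨ih1.trans h2, ?_⟩
    have h3 : β * h j ≤ κ / 4 * h (j + 1) := by
      have h4 : κ * (κ / 4 * h (j + 1)) ≥ κ * (β * h j) := by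
        have h5 : κ / 4 * (κ * h (j + 1)) = κ ^ 2 / 4 * h (j + 1) := by ring
        have h6 : κ ^ 2 / 4 * h (j + 1) ≥ 2 * β * h (j + 1) := by
          apply mul_le_mul_of_nonneg_right _ (by linarith)
          linarith
        have h7 : 2 * β * h (j + 1) ≥ 2 * β * (κ / 2 * h j) :=
          mul_le_mul_of_nonneg_left ih2 (by positivity)
        calc κ * (κ / 4 * h (j + 1)) = κ / 4 * (κ * h (j + 1)) := by ring
          _ ≥ 2 * β * (κ / 2 * h j) := by rw [h5]; exact h7.le.trans h6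
          _ = κ * (β * h j) := by ring
      exact le_of_mul_le_mul_left h4 (by linarith)
    have h8 := hrec j
    have h9 : c₀ ≤ κ / 4 * h (j + 1) := by
      have h10 : 1 / 2 * h (j + 1) ≤ κ / 4 * h (j + 1) :=
        mul_le_mul_of_nonneg_right (by linarith) (by linarith)
      have h11 := le_abs_self c₀
      linarith
    change κ / 2 * h (j + 1) ≤ h (j + 2)
    linarith

/-- exponential growth excludes slow growth along a subsequence -/
theorem no_slow' (h : ℕ → ℝ) {κ E : ℝ} (hE : 1 ≤ E) (hκ : E < κ) (h0 : 0 < h 0)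
    (hh : ∀ n, h 0 ≤ h n ∧ κ * h n ≤ h (n + 1)) {k M : ℕ} (hk : 1 ≤ k)
    (hslow : ∀ i, ∃ c : ℝ, ∀ j, h (k * (i + j)) ≤ M * E ^ (k * i) * h (k * j) + c) : False := by
  have hpos : ∀ n, 0 < h n := fun n => lt_of_lt_of_le h0 (hh n).1
  have hκ1 : 1 < κ := lt_of_le_of_lt hE hκ
  have hpow : ∀ n m, κ ^ m * h n ≤ h (n + m) := by
    intro n m
    induction m with
    | zero => simp
    | succ m ih =>
      calc κ ^ (m + 1) * h n = κ * (κ ^ m * h n) := by ring
        _ ≤ κ * h (n + m) := mul_le_mul_of_nonneg_left ih (by linarith)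
        _ ≤ h (n + m + 1) := (hh _).2
        _ = h (n + (m + 1)) := by rw [Nat.add_assoc]
  have hE0 : 0 < E := by linarith
  have hr : 1 < κ / E := by rwa [one_lt_div hE0]
  obtain ⟨i, hi⟩ := pow_unbounded_of_one_lt ((M : ℝ) + 1) hr
  obtain ⟨c, hc⟩ := hslow i
  have h1 : ((M : ℝ) + 1) * E ^ (k * i) ≤ κ ^ (k * i) := by
    have h2 : (κ / E) ^ i ≤ (κ / E) ^ (k * i) :=
      pow_le_pow_right₀ hr.le (Nat.le_mul_of_pos_left _ hk)
    have h3 : (M : ℝ) + 1 ≤ (κ / E) ^ (k * i) := hi.le.trans h2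
    rw [div_pow, le_div_iff₀ (by positivity)] at h3
    exact h3
  have hle : ∀ j, h (k * j) ≤ c := by
    intro j
    have h2 := hc j
    have h3 := hpow (k * j) (k * i)
    have h4 : k * j + k * i = k * (i + j) := by ring
    rw [h4] at h3
    have h5 := mul_le_mul_of_nonneg_right h1 (hpos (k * j)).le
    have h6 : 1 * h (k * j) ≤ E ^ (k * i) * h (k * j) :=
      mul_le_mul_of_nonneg_right (one_le_pow₀ hE) (hpos _).le
    have h7 : ((M : ℝ) + 1) * E ^ (k * i) * h (k * j) =
        M * E ^ (k * i) * h (k * j) + E ^ (k * i) * h (k * j) := by ring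
    linarith
  obtain ⟨j, hj⟩ := pow_unbounded_of_one_lt (c / h 0) hκ1
  have h2 := hle j
  have h3 := hpow 0 (k * j)
  rw [Nat.zero_add] at h3
  have h4 : κ ^ j ≤ κ ^ (k * j) := pow_le_pow_right₀ hκ1.le (Nat.le_mul_of_pos_left _ hk)
  have h5 := mul_le_mul_of_nonneg_right h4 h0.le
  rw [div_lt_iff₀ h0] at hj
  linarith

end Pool.Agent.H8.TD
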