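import Pool.Agent.H8.TD.Defs

/-!
# Zariski dense orbits in dimension three: the targets
-/

open MvPolynomial
open Pool.Agent.H12.ZD (pmap v O Res DenseOrbit NoInv)
open Pool.Agent.H18.HIT
open Pool.Agent.H8.ZA (HFam Const NA sz)

namespace Pool.Agent.H8.TD

/-! ## A. Curves over a field `κ` -/

/-- the length of `R / (S)` is the degree of the norm of `S` -/
def T_NRF : Prop := ∀ (κ R : Type) [Field κ] [CommRing R] [IsDomain R] [Algebra κ R]
  [Algebra (Polynomial κ) R] [IsScalarTower κ (Polynomial κ) R] [Module.Finite (Polynomial κ) R],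
  Function.Injective (algebraMap (Polynomial κ) R) → ∀ S : R, S ≠ 0 →
  Module.Finite κ (R ⧸ Ideal.span {S}) ∧
    Module.finrank κ (R ⧸ Ideal.span {S}) = (Algebra.norm (Polynomial κ) S).natDegree

/-- the norm is the product of the conjugates -/
def T_NVE : Prop := ∀ (κ R Ω : Type) [Field κ] [CharZero κ] [CommRing R] [IsDomain R]
  [Algebra (Polynomial κ) R] [Module.Finite (Polynomial κ) R] [Field Ω] [IsAlgClosed Ω]
  [Algebra (Polynomial κ) Ω], Function.Injective (algebraMap (Polynomial κ) R) →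
  Function.Injective (algebraMap (Polynomial κ) Ω) → ∃ s : Finset (R →ₐ[Polynomial κ] Ω),
    ∀ S : R, algebraMap (Polynomial κ) Ω (Algebra.norm (Polynomial κ) S) = ∏ σ ∈ s, σ S

/-- a general linear combination has the largest value at finitely many places -/
def T_SSP : Prop := ∀ (k Ω Γ : Type) [Field k] [Infinite k] [Field Ω] [Algebra k Ω]
  [LinearOrderedCommGroupWithZero Γ] (w : Valuation Ω Γ),
  (∀ c : k, c ≠ 0 → w (algebraMap k Ω c) = 1) → ∀ (ι : Type) [Finite ι] (a : ℕ)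
  (φ : ι → Fin a → Ω), ∃ (c : k) (s : Fin a → k), ∀ j,
    1 ≤ w (algebraMap k Ω c + lc s (φ j)) ∧
    ∀ i, w (φ j i) ≤ w (algebraMap k Ω c + lc s (φ j))

/-- the fibres of a function have at most as many points as its degree -/
def T_LEN : Prop := ∀ (κ C : Type) [Field κ] [Field C] [Algebra κ C] (R : Subalgebra κ C)
  (z : R) (c : κ), (∃ y : C, FiniteDimensional (IntermediateField.adjoin κ {y}) C) →
  algebraMap κ R c + z ≠ 0 → Module.Finite κ (R ⧸ Ideal.span {algebraMap κ R c + z}) ∧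
    Module.finrank κ (R ⧸ Ideal.span {algebraMap κ R c + z}) ≤ dg κ {(z : C)}

/-- the number of zeros of a section on a curve -/
def T_CLZ : Prop := ∀ (k κ C : Type) [Field k] [Infinite k] [Field κ] [CharZero κ] [Field C]
  [Algebra k κ] [Algebra κ C] [Algebra k C] [IsScalarTower k κ C] (a b : ℕ) (φ : Fin a → C)
  (ψ : Fin b → C) (M M' n l : ℕ) (R : Subalgebra κ C),
  (∃ y : C, FiniteDimensional (IntermediateField.adjoin κ {y}) C) → R.FG →
  (∀ i, φ i ∈ R) → (∀ i, ψ i ∈ R) →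
  (∀ s : Fin a → k, dg κ {lc s φ} ≤ M) → (∀ s : Fin b → k, dg κ {lc s ψ} ≤ M') →
  ∀ S : R, (S : C) ∈ Wsp κ φ ψ n l → S ≠ 0 →
    Module.Finite κ (R ⧸ Ideal.span {S}) ∧
    Module.finrank κ (R ⧸ Ideal.span {S}) ≤ n * M + l * M'

/-- the general fibres of a function have as many points as its degree -/
def T_LOW : Prop := ∀ (κ C : Type) [Field κ] [Field C] [Algebra κ C] (R : Subalgebra κ C)
  (z : R), R.FG → IntermediateField.adjoin κ (R : Set C) = ⊤ → Transcendental κ (z : C) →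
  FiniteDimensional (IntermediateField.adjoin κ {(z : C)}) C →
  {c : κ | Module.finrank κ (R ⧸ Ideal.span {z - algebraMap κ R c}) ≠ dg κ {(z : C)}}.Finite

/-- the dimension of a space of sections on a curve -/
def T_CLR : Prop := ∀ (k κ C : Type) [Field k] [Infinite k] [Field κ] [CharZero κ] [Field C]
  [Algebra k κ] [Algebra κ C] [Algebra k C] [IsScalarTower k κ C] (a b : ℕ) (φ : Fin a → C)
  (ψ : Fin b → C) (M M' n l : ℕ),
  (∃ y : C, FiniteDimensional (IntermediateField.adjoin κ {y}) C) →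
  IntermediateField.adjoin κ (Set.range φ ∪ Set.range ψ) = ⊤ →
  (∀ s : Fin a → k, dg κ {lc s φ} ≤ M) → (∀ s : Fin b → k, dg κ {lc s ψ} ≤ M') →
  (∃ s : Fin b → k, Transcendental κ (lc s ψ)) →
  Module.finrank κ (Wsp κ φ ψ n l) ≤ n * M + (l + 1) * M'

/-- degrees over a field generated in two steps -/
def T_ADJ : Prop := ∀ (k K : Type) [Field k] [Field K] [Algebra k K] (S : Set K) (c : K),
  dg (IntermediateField.adjoin k S) {c} = dg k (insert c S)

/-- the degree of a rational function in `φ` -/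
def T_PDG : Prop := ∀ (k κ C : Type) [Field k] [Infinite k] [Field κ] [CharZero κ] [Field C]
  [Algebra k κ] [Algebra κ C] [Algebra k C] [IsScalarTower k κ C] (a : ℕ) (φ : Fin a → C)
  (M δ : ℕ) (P P₀ : MvPolynomial (Fin a) κ),
  (∃ y : C, FiniteDimensional (IntermediateField.adjoin κ {y}) C) →
  (∃ y : C, Transcendental κ y) →
  (∀ s : Fin a → k, dg κ {lc s φ} ≤ M) → P.totalDegree ≤ δ → P₀.totalDegree ≤ δ →
  aeval φ P₀ ≠ 0 → dg κ {aeval φ P / aeval φ P₀} ≤ δ * M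

/-! ## B. The auxiliary function -/

/-- the dimension of a space of sections on the surface defined by a general value of `g` -/
def T_SRB : Prop := ∀ (k K : Type) [Field k] [CharZero k] [Field K] [Algebra k K]
  (a b : ℕ) (A : Fin a → K) (B : Fin b → K) (g : K) (M Q n l J : ℕ) (t t' : Fin b → k),
  Algebra.trdeg k K = 3 → IntermediateField.adjoin k (Set.range A ∪ Set.range B) = ⊤ →
  1 ≤ Q → dg k {g, lc t B, lc t' B} = Q →
  (∀ s s' : Fin b → k, dg k {g, lc s B, lc s' B} ≤ Q) →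
  (∀ (s : Fin b → k) (s' : Fin a → k), dg k {g, lc s B, lc s' A} ≤ M) →
  n * M + l * Q < J * Q →
  Module.finrank (IntermediateField.adjoin k {g}) (Wsp (IntermediateField.adjoin k {g}) A B n l) ≤
    J * (n * M + (l + 1) * Q)

/-- the dimension of a space of sections, lower bound -/
def T_DLB : Prop := ∀ (k K : Type) [Field k] [Field K] [Algebra k K] (a b : ℕ) (A : Fin a → K)
  (B : Fin b → K) (s : Fin a → k) (t t' : Fin b → k), Algebra.trdeg k K = 3 →
  IntermediateField.adjoin k (Set.range A ∪ Set.range B) = ⊤ →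
  1 ≤ dg k {lc s A, lc t B, lc t' B} → ∃ n₀ : ℕ, ∀ n l : ℕ,
    dg k {lc s A, lc t B, lc t' B} * ((n + 1) * ((l + 1) * (l + 2) / 2)) ≤
      Module.finrank k (Wsp k A B (n + n₀) (l + n₀))

/-- a section which vanishes on `N` generic surfaces `g = c_j` -/
def T_AXF : Prop := ∀ (k R K : Type) [Field k] [CommRing R] [IsDomain R] [Field K]
  [Algebra k R] [Algebra R K] [Algebra k K] [IsScalarTower k R K] (W : Submodule k R) (g : R)
  (N ρ : ℕ), Function.Injective (algebraMap R K) → Transcendental k g → Module.Finite k W →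
  Module.finrank (IntermediateField.adjoin k {algebraMap R K g})
    (Submodule.span (IntermediateField.adjoin k {algebraMap R K g}) (algebraMap R K '' W)) ≤ ρ →
  N * ρ < Module.finrank k W →
  ∃ s s' : MvPolynomial (Fin N) R, s' ≠ 0 ∧ s = (∏ j, (X j - C g)) * s' ∧ ∀ γ, coeff γ s ∈ W

/-- the choice of the parameters -/
def T_NUM : Prop := ∀ Q Q' M n₀ : ℕ, 1 ≤ Q → 1 ≤ Q' → 1 ≤ M → ∃ t n l : ℕ, 1 ≤ t ∧
  n + n₀ = 9 * Q' * t ∧ l + n₀ = 9 * M * t ∧
  Q * t * ((18 * M * t + 1) * (9 * Q' * t * M + (9 * M * t + 1) * Q')) <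
    Q * ((n + 1) * ((l + 1) * (l + 2) / 2))

/-! ## C. Heights -/

/-- multiplication by linear factors increases the Gauss norm -/
def T_GNX : Prop := ∀ (k : Type) [Field k] (N δ : ℕ) (w : AbsoluteValue k ℝ),
  ∃ c : ℝ, 0 < c ∧ c ≤ 1 ∧ (NA w → c = 1) ∧
    ∀ (x : k) (q : MvPolynomial (Fin N) k), q.totalDegree ≤ δ →
      ∀ γ, ∃ γ', c * max 1 (w x) ^ N * w (coeff γ q) ≤ w (coeff γ' ((∏ j, (X j - C x)) * q))

/-- bound for the values of a section -/
def T_WBX : Prop := ∀ (R : Type) [CommRing R] [Algebra Qb R] (A B : Fin 3 → R) (n l : ℕ) (q : R),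
  q ∈ Wsp Qb A B n l → ∀ (K : IntermediateField ℚ Qb) (F : HFam K), ∃ c, Const F c ∧
    ∀ (i : F.ι) (ev : R →ₐ[Qb] Qb), F.abv i (ev q) ≤
      c i * (sz (F.abv i) (fun j => ev (A j)) ^ n * sz (F.abv i) (fun j => ev (B j)) ^ l)

/-- the height inequality -/
def T_KIN : Prop := ∀ (R K : Type) [CommRing R] [IsDomain R] [Field K] [Algebra Qb R]
  [Algebra R K] [Algebra Qb K] [IsScalarTower Qb R K] (A B : Fin 3 → R) (g : R) (Q Q' M : ℕ)
  (s t t' : Fin 3 → Qb), Function.Injective (algebraMap R K) → Algebra.trdeg Qb K = 3 →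
  IntermediateField.adjoin Qb (Set.range (fun i => algebraMap R K (A i)) ∪
    Set.range (fun i => algebraMap R K (B i))) = ⊤ → 1 ≤ Q → 1 ≤ M →
  Q ≤ dg Qb {lc s (fun i => algebraMap R K (A i)), lc t (fun i => algebraMap R K (B i)),
    lc t' (fun i => algebraMap R K (B i))} →
  (∀ u u' : Fin 3 → Qb, dg Qb {algebraMap R K g, lc u (fun i => algebraMap R K (B i)),
    lc u' (fun i => algebraMap R K (B i))} ≤ Q') →
  (∀ u u' : Fin 3 → Qb, dg Qb {algebraMap R K g, lc u (fun i => algebraMap R K (B i)),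
    lc u' (fun i => algebraMap R K (A i))} ≤ M) →
  (∃ u u' : Fin 3 → Qb, 1 ≤ dg Qb {algebraMap R K g, lc u (fun i => algebraMap R K (B i)),
    lc u' (fun i => algebraMap R K (B i))}) →
  ∃ b : R, b ≠ 0 ∧ ∀ (K' : IntermediateField ℚ Qb) (F : HFam K'), ∃ c : ℝ,
    ∀ ev : R →ₐ[Qb] Qb, ev b ∈ K' → ev b ≠ 0 →
      (Q : ℝ) * F.ht ![ev g, 0, 0] ≤
        9 * Q' * F.ht (fun i => ev (A i)) + 9 * M * F.ht (fun i => ev (B i)) + c

/-! ## D. Degrees of the iterates -/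

/-- pullback of intersection numbers -/
def T_PBK : Prop := ∀ (k K : Type) [Field k] [Field K] [Algebra k K] (τ : K →ₐ[k] K) (n : ℕ)
  (S : Set K), dg k (τ^[n] '' S) = Module.finrank τ.fieldRange K ^ n * dg k S

/-- the intersection numbers of linear forms -/
def T_BZ1 : Prop := ∀ (k : Type) [Field k], Bd k (xx k) (xx k) (xx k) 1

/-- growth of the intersection numbers under composition -/
def T_INS : Prop := ∀ (k : Type) [Field k] [CharZero k] (τ : K3 k →ₐ[k] K3 k)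
  (P : Fin 4 → Po 3 k) (δ m n Y : ℕ) (β γ : Fin 3 → K3 k), (∀ i, (P i).totalDegree ≤ δ) →
  P 0 ≠ 0 → (∀ i, ph τ n i * algebraMap (Po 3 k) (K3 k) (P 0) =
    algebraMap (Po 3 k) (K3 k) (P i.succ)) →
  Bd k (ph τ m) β γ Y → Bd k (ph τ (m + n)) β γ (δ * Y)

/-- existence of independent linear combinations -/
def T_EXT : Prop := ∀ (k K : Type) [Field k] [Field K] [Algebra k K] (A B : Fin 3 → K) (g : K),
  Algebra.trdeg k K = 3 → (⊤ : IntermediateField k K).FG → Transcendental k g →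
  Algebra.IsAlgebraic (IntermediateField.adjoin k (Set.range A)) K →
  Algebra.IsAlgebraic (IntermediateField.adjoin k (Set.range B)) K →
  ∃ u u' : Fin 3 → k, 1 ≤ dg k {g, lc u B, lc u' A}

/-- the degree of a rational function of one variable -/
def T_RFD : Prop := ∀ (κ C : Type) [Field κ] [Field C] [Algebra κ C] (t : C)
  (p q : Polynomial κ) (D : ℕ), Transcendental κ t → IntermediateField.adjoin κ {t} = ⊤ →
  1 ≤ D → IsCoprime p q → p.natDegree ≤ D → q.natDegree ≤ D → (p.coeff D ≠ 0 ∨ q.coeff D ≠ 0) →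
  Polynomial.aeval t p ≠ 0 → D ≤ dg κ {Polynomial.aeval t q / Polynomial.aeval t p}

/-- the degree of a map as an intersection number -/
def T_LDG : Prop := ∀ (k : Type) [Field k] [IsAlgClosed k] [CharZero k] (G : Tup 4 k) (D : ℕ),
  1 ≤ D → (∀ i, (G i).IsHomogeneous D) → Cop G → G 0 ≠ 0 → ∃ s s' s'' : Fin 3 → k,
    D ≤ dg k {lc s (fun i : Fin 3 => qt (G i.succ) (G 0)), lc s' (xx k), lc s'' (xx k)}

/-- the reduced lifts of the iterates -/
def T_RED : Prop := ∀ (k : Type) [Field k] (F : Tup 4 k) (d : ℕ), 1 ≤ d →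
  (∀ i, (F i).IsHomogeneous d) → Function.Injective (aeval F : Po 4 k →ₐ[k] Po 4 k) →
  ∃ (G : ℕ → Tup 4 k) (a : ℕ → ℕ), (∀ n i, (G n i).IsHomogeneous (a n)) ∧ (∀ n, Cop (G n)) ∧
    (∀ n, ∃ h : Po 4 k, ∀ i, it F n i = h * G n i) ∧ (∀ n, 1 ≤ a n) ∧
    ∀ m n, a (m + n) ≤ a m * a n

/-- the action on the field of rational functions -/
def T_TAU : Prop := ∀ (k : Type) [Field k] (F : Tup 4 k) (d : ℕ), 1 ≤ d →
  (∀ i, (F i).IsHomogeneous d) → Function.Injective (aeval F : Po 4 k →ₐ[k] Po 4 k) →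
  ∃ τ : K3 k →ₐ[k] K3 k, ∀ n, dh (it F n 0) ≠ 0 ∧ ∀ i, ph τ n i = qt (it F n i.succ) (it F n 0)

/-- numbers: the growth conditions are satisfied at some scale -/
def T_GR3 : Prop := ∀ (a Y M : ℕ → ℕ) (e : ℕ) (c : ℝ), (∀ n, 1 ≤ a n) →
  (∀ m n, a (m + n) ≤ a m * a n) → 1 ≤ e → (e : ℝ) < c → (∀ N, ∃ n ≥ N, c ^ n ≤ (a n : ℝ)) →
  (∀ m, M m ≤ a m * Y m) → (∀ m, M m ≤ a m * a (m + m)) →
  ∃ m ≥ 1, GI e (a m) (a (m + m)) (M m) m ∨ GII e (a m) (M m) (Y (m + m)) m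

/-! ## E. The topological degree -/

/-- degree of a graded extension -/
def T_SL1 : Prop := ∀ (k K L : Type) [Field k] [Field K] [Field L] [Algebra k K] [Algebra k L]
  [Algebra K L] [IsScalarTower k K L] (τ₀ : K →ₐ[k] K) (τ : L →ₐ[k] L) (s : L) (w : K) (D : ℕ),
  1 ≤ D → Transcendental K s → IntermediateField.adjoin K {s} = ⊤ → w ≠ 0 →
  (∀ x, τ (algebraMap K L x) = algebraMap K L (τ₀ x)) → τ s = s ^ D * algebraMap K L w →
  FiniteDimensional τ.fieldRange L → FiniteDimensional τ₀.fieldRange K ∧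
    D * Module.finrank τ₀.fieldRange K ≤ Module.finrank τ.fieldRange L

/-- the number of preimages under the iterates of a homogeneous map -/
def T_UPE : Prop := ∀ (N : ℕ) (k : Type) [Field k] [IsAlgClosed k] [CharZero k] (F : Tup N k)
  (d e n : ℕ) (θ : Po N k) (Φ : Polynomial (Po N k)) (Δ : Po N k)
  (R : Fin N → Polynomial (Po N k)), 1 ≤ N → 1 ≤ d → (∀ i, (F i).IsHomogeneous d) →
  Function.Injective (aeval F : Po N k →ₐ[k] Po N k) →
  (∃ c : Po N k, c ≠ 0 ∧ ∀ y : Fin N → k, eval y c ≠ 0 → ∀ S : Finset (Fin N → k),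
    (∀ x ∈ S, pmap F x = y) → (∀ x ∈ S, ∀ x' ∈ S, ∀ t : k, (∀ i, x' i = t * x i) → x' = x) →
    S.card ≤ e) →
  Prim (it F n) θ Φ Δ R → Φ.natDegree ≤ d ^ n * e ^ n

/-- the degree of the extension of the function fields -/
def T_DGB : Prop := ∀ (k : Type) [Field k] [IsAlgClosed k] [CharZero k] (F : Tup 4 k) (d e : ℕ)
  (τ : K3 k →ₐ[k] K3 k) (θ : Po 4 k) (Φ : Polynomial (Po 4 k)) (Δ : Po 4 k)
  (R : Fin 4 → Polynomial (Po 4 k)), 1 ≤ d → (∀ i, (F i).IsHomogeneous d) →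
  Function.Injective (aeval F : Po 4 k →ₐ[k] Po 4 k) → Prim F θ Φ Δ R →
  Φ.natDegree ≤ d * e → (∀ i, ph τ 1 i = qt (F i.succ) (F 0)) →
  Module.finrank τ.fieldRange (K3 k) ≤ e

/-! ## F. Slow growth along a totally invariant curve -/

/-- common zeros of two relatively prime polynomials -/
def T_CTD : Prop := ∀ (k Ω : Type) [Field k] [Field Ω] [Algebra k Ω] (S S' : Po 4 k)
  (ξ : Fin 4 → Ω), S ≠ 0 → S' ≠ 0 → IsRelPrime S S' → aeval ξ S = 0 → aeval ξ S' = 0 →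
  Algebra.trdeg k (IntermediateField.adjoin k (Set.range ξ)) ≤ 2

/-- algebraic relations between a function and its iterates on a curve -/
def T_RL0 : Prop := ∀ (k K : Type) [Field k] [IsAlgClosed k] [Field K] [Algebra k K]
  (τ : K →ₐ[k] K) (e : ℕ) (t φ : K),
  (∃ y : K, FiniteDimensional (IntermediateField.adjoin k {y}) K) →
  FiniteDimensional τ.fieldRange K → Module.finrank τ.fieldRange K ≤ e → ∃ M : ℕ, ∀ n : ℕ,
    ∃ G : Polynomial (Polynomial k), G ≠ 0 ∧ (∀ j, (G.coeff j).natDegree ≤ M * e ^ n) ∧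
      Polynomial.eval₂ (Polynomial.aeval t : Polynomial k →ₐ[k] K).toRingHom (τ^[n] φ) G = 0

/-- the same for the cone over a curve and a homogeneous map -/
def T_RL1 : Prop := ∀ (k : Type) [Field k] [IsAlgClosed k] [CharZero k] (I : Ideal (Po 4 k))
  (T : Tup 4 k) (D e : ℕ) (θ : Po 4 k) (Φ : Polynomial (Po 4 k)) (Δ : Po 4 k)
  (R : Fin 4 → Polynomial (Po 4 k)) (S S' : Po 4 k), I.IsPrime → 1 ≤ D →
  (∀ i, (T i).IsHomogeneous D) → (∀ q ∈ I, ∀ m, homogeneousComponent m q ∈ I) → X 0 ∉ I →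
  (∀ q, aeval T q ∈ I ↔ q ∈ I) → Prim T θ Φ Δ R → Δ ∉ I → Φ.natDegree ≤ D * e →
  S ∈ I → S' ∈ I → S ≠ 0 → S' ≠ 0 → IsRelPrime S S' → ∀ i j : Fin 4, ∃ M : ℕ, ∀ n : ℕ,
    ∃ G : Polynomial (Polynomial k), G ≠ 0 ∧ (∀ m, (G.coeff m).natDegree ≤ M * e ^ n) ∧
      ∀ y : Fin 4 → k, (∀ q ∈ I, eval y q = 0) → y 0 ≠ 0 → (pmap T)^[n] y 0 ≠ 0 →
        (G.map (Polynomial.evalRingHom (y j / y 0))).eval
          ((pmap T)^[n] y i / (pmap T)^[n] y 0) = 0

/-- relations with coefficients in a number field and without common factor -/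
def T_RL2 : Prop := ∀ (K : IntermediateField ℚ Qb) (T : Tup 4 Qb) (y : Fin 4 → Qb)
  (n m : ℕ) (i j : Fin 4) (G : Polynomial (Polynomial Qb)),
  (∀ l s, (pmap T)^[l] y s ∈ K) → (∀ l, (pmap T)^[l] y 0 ≠ 0) → (van T y).IsPrime →
  (∀ c : Qb, ∃ l, (pmap T)^[l] y j ≠ c * (pmap T)^[l] y 0) → G ≠ 0 →
  (∀ s, (G.coeff s).natDegree ≤ m) →
  (∀ l, (G.map (Polynomial.evalRingHom ((pmap T)^[l] y j / (pmap T)^[l] y 0))).eval
    ((pmap T)^[n + l] y i / (pmap T)^[n + l] y 0) = 0) →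
  ∃ G' : Polynomial (Polynomial Qb), (∀ s u, (G'.coeff s).coeff u ∈ K) ∧
    (∀ s, (G'.coeff s).natDegree ≤ m) ∧ (∀ t : Qb, ∃ s, (G'.coeff s).eval t ≠ 0) ∧
    ∀ l, (G'.map (Polynomial.evalRingHom ((pmap T)^[l] y j / (pmap T)^[l] y 0))).eval
      ((pmap T)^[n + l] y i / (pmap T)^[n + l] y 0) = 0

/-- heights of algebraically dependent numbers -/
def T_HRL : Prop := ∀ (G : Polynomial (Polynomial Qb)) (m : ℕ) (K : IntermediateField ℚ Qb)
  (F : HFam K), (∀ i j, (G.coeff i).coeff j ∈ K) → (∀ j, (G.coeff j).natDegree ≤ m) →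
  (∀ t : Qb, ∃ j, (G.coeff j).eval t ≠ 0) → ∃ c : ℝ, ∀ t φ : Qb, t ∈ K →
    (G.map (Polynomial.evalRingHom t)).eval φ = 0 →
    F.ht ![φ, 0, 0] ≤ m * F.ht ![t, 0, 0] + c

/-! ## G. Lines -/

/-- general lines through a point avoid the common zeros of polynomials without common factor -/
def T_LAV : Prop := ∀ (k : Type) [Field k] [Infinite k] (M : ℕ) (G : Fin M → Po 4 k)
  (y : Fin 4 → k), Cop G → (∃ i, eval y (G i) ≠ 0) → ∃ c : Po 4 k, c ≠ 0 ∧
    ∀ b : Fin 4 → k, eval b c ≠ 0 → ∀ t : k, ∃ i, eval (fun j => y j + t * b j) (G i) ≠ 0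

/-- heights along a rational curve -/
def T_LNX : Prop := ∀ (p : Fin 4 → Polynomial Qb) (D : ℕ), (∀ i, (p i).natDegree ≤ D) →
  (∃ i, (p i).coeff D ≠ 0) → (∀ t : Qb, ∃ i, (p i).eval t ≠ 0) → p 0 ≠ 0 →
  ∀ (K : IntermediateField ℚ Qb) (F : HFam K), (∀ j, (p 0).coeff j ∈ K) → ∃ c : ℝ,
    ∀ t : ℤ, t ≠ 0 → (p 0).eval (t : Qb) ≠ 0 →
      |F.ht (fun i : Fin 3 => (p i.succ).eval (t : Qb) / (p 0).eval (t : Qb)) -
        D * (F.arch.card * Real.log |(t : ℝ)|)| ≤ c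

/-- Bertini's theorem for lines with a general direction -/
def T_BRX : Prop := ∀ (N : ℕ) (Φ : Polynomial (Po N Qb)) (c : Po N Qb), Φ.Monic →
  Irreducible Φ → c ≠ 0 → ∃ y : Fin N → ℤ, eval (cZ y) c ≠ 0 ∧ ∀ c' : Po N Qb, c' ≠ 0 →
    ∃ b : Fin N → ℤ, eval (cZ b) c' ≠ 0 ∧ Irreducible (Φ.map (lin y b))

/-- homogenization -/
def T_HMG : Prop := ∀ (k : Type) [Field k] (p : Po 3 k), p ≠ 0 → ∃ (P : Po 4 k) (D : ℕ), P ≠ 0 ∧
  ∀ y : Fin 4 → k, y 0 ≠ 0 → eval y P = y 0 ^ D * eval (aff y) p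

/-- primitive elements of conjugate maps -/
def T_PRC : Prop := ∀ (N : ℕ) (k : Type) [Field k] (T G L L' : Tup N k) (θ : Po N k)
  (Φ : Polynomial (Po N k)) (Δ : Po N k) (R : Fin N → Polynomial (Po N k)),
  comp L' L = (fun i => X i) → comp L L' = (fun i => X i) → comp T L = comp L G →
  (∀ i, (L i).totalDegree ≤ 1) → Prim G θ Φ Δ R →
  ∃ (θ' : Po N k) (Φ' : Polynomial (Po N k)) (Δ' : Po N k) (R' : Fin N → Polynomial (Po N k)),
    Prim T θ' Φ' Δ' R' ∧ Φ'.natDegree = Φ.natDegree ∧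
    ∀ x : Fin N → k, eval (pmap L x) Δ' = eval x Δ

end Pool.Agent.H8.TD
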