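import Pool.Agent.H8.TD.Targets

/-!
# Zariski dense orbits in dimension three: elementary lemmas
-/

set_option autoImplicit false

open MvPolynomial
open Pool.Agent.H12.ZD (pmap v O Res DenseOrbit NoInv)
open Pool.Agent.H18.HIT
open Pool.Agent.H8.ZA (HFam Const NA sz)

namespace Pool.Agent.H8.TD

/-! ## Heights -/

section height

variable {K : IntermediateField ℚ Qb}

/-- the height of a point is at most the sum of the heights of the coordinates -/
theorem ht_le_sum (F : HFam K) (x : Fin 3 → Qb) :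
    F.ht x ≤ F.ht ![x 0, 0, 0] + F.ht ![x 1, 0, 0] + F.ht ![x 2, 0, 0] := by
  have e0 : F.ht ![x 0, 0, 0] + F.ht ![x 1, 0, 0] + F.ht ![x 2, 0, 0] =
      ∑ᶠ i, (Real.log (sz (F.abv i) ![x 0, 0, 0]) + Real.log (sz (F.abv i) ![x 1, 0, 0]) +
        Real.log (sz (F.abv i) ![x 2, 0, 0])) := by
    rw [finsum_add_distrib _ (Pool.Agent.H8.ZA.log_sz_finite F _),
      finsum_add_distrib (Pool.Agent.H8.ZA.log_sz_finite F _)
        (Pool.Agent.H8.ZA.log_sz_finite F _)]
    · rfl
    · exact ((Pool.Agent.H8.ZA.log_sz_finite F _).union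
        (Pool.Agent.H8.ZA.log_sz_finite F _)).subset (Function.support_add _ _)
  rw [e0]
  apply finsum_le_finsum'
  · exact Pool.Agent.H8.ZA.log_sz_finite F x
  · exact ((((Pool.Agent.H8.ZA.log_sz_finite F _).union
      (Pool.Agent.H8.ZA.log_sz_finite F _)).subset (Function.support_add _ _)).union
      (Pool.Agent.H8.ZA.log_sz_finite F _)).subset (Function.support_add _ _)
  · intro i
    have h : ∀ j : Fin 3, ∀ c : Qb, sz (F.abv i) ![c, 0, 0] = max 1 (F.abv i c) := by
      intro j c
      simp only [sz, Matrix.cons_val_zero, Matrix.cons_val_one, Matrix.cons_val, map_zero]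
      rw [max_self, max_eq_left ((F.abv i).nonneg c)]
    change Real.log (sz (F.abv i) x) ≤ Real.log (sz (F.abv i) ![x 0, 0, 0]) +
      Real.log (sz (F.abv i) ![x 1, 0, 0]) + Real.log (sz (F.abv i) ![x 2, 0, 0])
    rw [h 0, h 0, h 0, ← Real.log_mul (by positivity) (by positivity),
      ← Real.log_mul (by positivity) (by positivity)]
    apply Real.log_le_log (Pool.Agent.H8.ZA.sz_pos _ _)
    apply Pool.Agent.H8.ZA.sz_le
    · exact one_le_mul_of_one_le_of_one_le (one_le_mul_of_one_le_of_one_le (le_max_left _ _)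
        (le_max_left _ _)) (le_max_left _ _)
    · have h1 : ∀ c : Qb, (1 : ℝ) ≤ max 1 (F.abv i c) := fun c => le_max_left _ _
      have h2 : ∀ c : Qb, F.abv i c ≤ max 1 (F.abv i c) := fun c => le_max_right _ _
      have h0 : ∀ c : Qb, (0 : ℝ) ≤ max 1 (F.abv i c) := fun c => zero_le_one.trans (h1 c)
      intro j
      fin_cases j
      · calc F.abv i (x 0) ≤ max 1 (F.abv i (x 0)) * 1 * 1 := by
              rw [mul_one, mul_one]
              exact h2 _
          _ ≤ _ := by
            apply mul_le_mul (mul_le_mul_of_nonneg_left (h1 _) (h0 _)) (h1 _) zero_le_one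
            exact mul_nonneg (h0 _) (h0 _)
      · calc F.abv i (x 1) ≤ 1 * max 1 (F.abv i (x 1)) * 1 := by
              rw [one_mul, mul_one]
              exact h2 _
          _ ≤ _ := by
            apply mul_le_mul (mul_le_mul_of_nonneg_right (h1 _) (h0 _)) (h1 _) zero_le_one
            exact mul_nonneg (h0 _) (h0 _)
      · calc F.abv i (x 2) ≤ 1 * 1 * max 1 (F.abv i (x 2)) := by
              rw [one_mul, one_mul]
              exact h2 _
          _ ≤ _ := by
            apply mul_le_mul_of_nonneg_right _ (h0 _)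
            rw [one_mul]
            exact one_le_mul_of_one_le_of_one_le (h1 _) (h1 _)

/-- the height of one coordinate -/
theorem ht_coord (F : HFam K) (x : Fin 3 → Qb) (j : Fin 3) : F.ht ![x j, 0, 0] ≤ F.ht x := by
  apply finsum_le_finsum'
  · exact Pool.Agent.H8.ZA.log_sz_finite F _
  · exact Pool.Agent.H8.ZA.log_sz_finite F _
  · intro i
    apply Real.log_le_log (Pool.Agent.H8.ZA.sz_pos _ _)
    apply Pool.Agent.H8.ZA.sz_le (Pool.Agent.H8.ZA.one_le_sz _ _)
    intro l
    fin_cases l
    · exact Pool.Agent.H8.ZA.le_sz _ _ j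
    · change F.abv i 0 ≤ _
      rw [map_zero]
      exact (Pool.Agent.H8.ZA.sz_pos _ _).le
    · change F.abv i 0 ≤ _
      rw [map_zero]
      exact (Pool.Agent.H8.ZA.sz_pos _ _).le

end height

/-! ## Linear combinations and degrees -/

section lin

variable {k K : Type} [Field k] [Field K] [Algebra k K]

theorem lc_single {a : ℕ} (φ : Fin a → K) (i : Fin a) : lc (Pi.single i (1 : k)) φ = φ i := by
  classical
  rw [lc, Finset.sum_eq_single i]
  · rw [Pi.single_eq_same, one_smul]
  · intro j _ hj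
    rw [Pi.single_eq_of_ne hj, zero_smul]
  · intro h
    exact absurd (Finset.mem_univ i) h

theorem Bd.swap {α β γ : Fin 3 → K} {M : ℕ} (h : Bd k α β γ M) : Bd k β α γ M := by
  intro s s' s''
  rw [Set.insert_comm]
  exact h s' s s''

theorem Bd.rot {α β γ : Fin 3 → K} {M : ℕ} (h : Bd k α β γ M) : Bd k α γ β M := by
  intro s s' s''
  rw [Set.pair_comm]
  exact h s s'' s'

theorem Bd.mono {α β γ : Fin 3 → K} {M M' : ℕ} (h : Bd k α β γ M) (hM : M ≤ M') :
    Bd k α β γ M' := fun s s' s'' => (h s s' s'').trans hM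

/-- the maximum of the intersection numbers -/
theorem exists_max {α β γ : Fin 3 → K} {B : ℕ} (h : Bd k α β γ B) : ∃ M ≤ B, Bd k α β γ M ∧
    ∃ s s' s'' : Fin 3 → k, dg k {lc s α, lc s' β, lc s'' γ} = M := by
  classical
  set P : ℕ → Prop := fun n => ∃ s s' s'' : Fin 3 → k, dg k {lc s α, lc s' β, lc s'' γ} = n with hP
  have h0 : P (dg k {lc (0 : Fin 3 → k) α, lc (0 : Fin 3 → k) β, lc (0 : Fin 3 → k) γ}) :=
    ⟨0, 0, 0, rfl⟩
  refine ⟨Nat.findGreatest P B, Nat.findGreatest_le B, ?_, ?_⟩
  · intro s s' s''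
    exact Nat.le_findGreatest (h s s' s'') ⟨s, s', s'', rfl⟩
  · exact Nat.findGreatest_spec (P := P) (h 0 0 0) h0

theorem lc_map {L : Type} [Field L] [Algebra k L] (f : K →ₐ[k] L) {a : ℕ} (s : Fin a → k)
    (φ : Fin a → K) : f (lc s φ) = lc s fun i => f (φ i) := by
  rw [lc, lc, map_sum]
  exact Finset.sum_congr rfl fun i _ => map_smul f _ _

theorem lc_iterate (τ : K →ₐ[k] K) {a : ℕ} (s : Fin a → k) (φ : Fin a → K) (n : ℕ) :
    τ^[n] (lc s φ) = lc s fun i => τ^[n] (φ i) := by
  induction n with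
  | zero => rfl
  | succ n ih =>
    rw [Function.iterate_succ_apply', ih, lc_map]
    simp only [Function.iterate_succ_apply']

end lin

/-! ## Dehomogenization -/

section dehom

variable {k : Type} [Field k]

theorem eval_dh (P : Po 4 k) (w : Fin 3 → k) :
    eval w (dh P) = eval (Fin.cons 1 w : Fin 4 → k) P := by
  have h : ((aeval w : Po 3 k →ₐ[k] k).comp dh) = aeval (Fin.cons 1 w : Fin 4 → k) := by
    apply algHom_ext
    intro i
    rw [AlgHom.comp_apply, dh, aeval_X, aeval_X]
    refine Fin.cases ?_ (fun j => ?_) i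
    · rw [Fin.cons_zero, Fin.cons_zero, map_one]
    · rw [Fin.cons_succ, Fin.cons_succ, aeval_X]
  exact DFunLike.congr_fun h P

theorem eval_smul {N : ℕ} {P : Po N k} {D : ℕ} (hP : P.IsHomogeneous D) (t : k)
    (y : Fin N → k) : eval (fun i => t * y i) P = t ^ D * eval y P := by
  rw [eval_eq', eval_eq', Finset.mul_sum]
  apply Finset.sum_congr rfl
  intro m hm
  have h1 : ∑ i, m i = D := by
    have h2 : m.degree = D := by
      by_contra hcon
      exact (mem_support_iff.mp hm) (hP.coeff_eq_zero hcon)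
    rw [Finsupp.degree_eq_sum] at h2
    exact h2
  have h3 : ∏ i, (t * y i) ^ m i = t ^ D * ∏ i, y i ^ m i := by
    rw [← h1, ← Finset.prod_pow_eq_pow_sum, ← Finset.prod_mul_distrib]
    exact Finset.prod_congr rfl fun i _ => mul_pow _ _ _
  rw [h3]
  ring

theorem eval_aff {P : Po 4 k} {D : ℕ} (hP : P.IsHomogeneous D) {y : Fin 4 → k} (hy : y 0 ≠ 0) :
    eval y P = y 0 ^ D * eval (aff y) (dh P) := by
  rw [eval_dh, ← eval_smul hP]
  congr 1
  congr 1
  funext i
  refine Fin.cases ?_ (fun j => ?_) i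
  · rw [Fin.cons_zero, mul_one]
  · rw [Fin.cons_succ, aff]
    field_simp

theorem totalDegree_dh_le (P : Po 4 k) : (dh P).totalDegree ≤ P.totalDegree := by
  have h : ∀ i : Fin 4, ((Fin.cons 1 (fun i : Fin 3 => X i) : Fin 4 → Po 3 k) i).totalDegree ≤
      1 := by
    intro i
    refine Fin.cases ?_ (fun j => ?_) i
    · rw [Fin.cons_zero, totalDegree_one]
      exact Nat.zero_le _
    · rw [Fin.cons_succ, totalDegree_X]
  rw [dh, aeval_def, eval₂_eq']
  apply totalDegree_finsetSum_le
  intro m hm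
  refine (totalDegree_mul _ _).trans ?_
  have h1 : (algebraMap k (Po 3 k) (coeff m P)).totalDegree = 0 := totalDegree_C _
  rw [h1, zero_add]
  refine (totalDegree_finsetProd _ _).trans ?_
  refine (Finset.sum_le_sum fun i _ => (totalDegree_pow _ _).trans
    (Nat.mul_le_mul_left _ (h i))).trans ?_
  simp only [mul_one]
  have h2 := le_totalDegree hm
  rwa [Finsupp.sum_fintype _ _ (fun _ => rfl)] at h2

theorem dh_ne {P : Po 4 k} {D : ℕ} (hP : P.IsHomogeneous D) (h0 : P ≠ 0) [Infinite k] :
    dh P ≠ 0 := by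
  intro h
  apply h0
  apply MvPolynomial.funext
  intro y
  have h1 : X 0 * P = 0 := by
    apply MvPolynomial.funext
    intro y
    rw [map_mul, eval_X, map_zero]
    by_cases hy : y 0 = 0
    · rw [hy, zero_mul]
    · rw [eval_aff hP hy, h, map_zero, mul_zero, mul_zero]
  rcases mul_eq_zero.mp h1 with h2 | h2
  · exact absurd h2 (X_ne_zero 0)
  · rw [h2]

end dehom

end Pool.Agent.H8.TD
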