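import Pool.Agent.H8.TD.Core2

/-!
# Zariski dense orbits in dimension three: the theorems
-/

set_option autoImplicit false

open MvPolynomial
open Pool.Agent.H12.ZD (pmap v O Res DenseOrbit NoInv)
open Pool.Agent.H18.HIT Pool.Agent.H8.HIT

namespace Pool.Agent.H8.TD

/-- rational self-maps of `ℙ^3` with small topological degree -/
theorem n3proj (F : Tup 4 Qb) (b : Po 4 Qb) (d : ℕ) (hd : 1 ≤ d)
    (hF : ∀ i, (F i).IsHomogeneous d)
    (hdom : ∀ (m : ℕ) (q : Po 4 Qb), q.IsHomogeneous m → aeval F q = 0 → q = 0)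
    (hinv : ∀ (m : ℕ) (P Q : Po 4 Qb), P.IsHomogeneous m → Q.IsHomogeneous m → Q ≠ 0 →
      aeval F P * Q = aeval F Q * P → ∃ c : Qb, P = C c * Q) (e : ℕ) (he : 1 ≤ e)
    (hpre : ∃ c : Po 4 Qb, c ≠ 0 ∧ ∀ y : Fin 4 → Qb, eval y c ≠ 0 →
      ∀ S : Finset (Fin 4 → Qb), (∀ x ∈ S, pmap F x = y) →
      (∀ x ∈ S, ∀ x' ∈ S, ∀ t : Qb, (∀ i, x' i = t * x i) → x' = x) → S.card ≤ e)
    (c : ℝ) (hc : (e : ℝ) < c)
    (hgrow : ∀ N, ∃ n ≥ N, ∀ (G : Tup 4 Qb) (h : Po 4 Qb) (a : ℕ), (∀ i, it F n i = h * G i) →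
      (∀ i, (G i).IsHomogeneous a) → c ^ n ≤ (a : ℝ)) (hb0 : b ≠ 0) :
    ∃ x : Fin 4 → Qb, (∀ n : ℕ, eval ((pmap F)^[n] x) b ≠ 0) ∧
      (∀ n : ℕ, (pmap F)^[n] x ≠ 0) ∧ DenseOrbit F x := by
  have he' : (1 : ℝ) ≤ e := by exact_mod_cast he
  have hd2 : 2 ≤ d := by
    obtain ⟨n, hn, h1⟩ := hgrow 1
    have h2 := h1 (it F n) 1 (d ^ n) (fun i => (one_mul _).symm)
      (it_hom hF n)
    by_contra hcon
    have h3 : d = 1 := by omega
    rw [h3, one_pow, Nat.cast_one] at h2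
    have h4 : 1 < c ^ n := one_lt_pow₀ (by linarith) (by omega)
    linarith
  have hinjF := Pool.Agent.H8.P2.inj_of_hom hd hF hdom
  exact core3 F hd2 hF hinjF (All.pni 4 Qb F d hd2 hF hinjF hinv) e he hpre c hc hgrow b hb0

/-! ## Homogenization -/

section homog

variable {k : Type} [Field k]

/-- homogenization with degree `d` -/
noncomputable def hz (d : ℕ) (p : Po 3 k) : Po 4 k :=
  ∑ m ∈ p.support, C (coeff m p) * X 0 ^ (d - ∑ i : Fin 3, m i) * ∏ i : Fin 3, X i.succ ^ m i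

theorem sum_le {p : Po 3 k} {d : ℕ} (hp : p.totalDegree ≤ d) {m : Fin 3 →₀ ℕ}
    (hm : m ∈ p.support) : ∑ i : Fin 3, m i ≤ d := by
  have h1 := (le_totalDegree hm).trans hp
  rwa [Finsupp.sum_fintype _ _ (fun _ => rfl)] at h1

theorem hz_hom {p : Po 3 k} {d : ℕ} (hp : p.totalDegree ≤ d) : (hz d p).IsHomogeneous d := by
  apply IsHomogeneous.sum
  intro m hm
  have h1 : (∏ i : Fin 3, (X i.succ : Po 4 k) ^ m i).IsHomogeneous (∑ i : Fin 3, m i) := by
    apply IsHomogeneous.prod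
    intro i _
    have h2 := (isHomogeneous_X k i.succ).pow (m i)
    rwa [one_mul] at h2
  have h3 : ((C (coeff m p) : Po 4 k) * X 0 ^ (d - ∑ i : Fin 3, m i)).IsHomogeneous
      (d - ∑ i : Fin 3, m i) := by
    have h4 := (isHomogeneous_C (Fin 4) (coeff m p)).mul ((isHomogeneous_X k (0 : Fin 4)).pow
      (d - ∑ i : Fin 3, m i))
    rwa [one_mul, zero_add] at h4
  have h5 := h3.mul h1
  rwa [Nat.sub_add_cancel (sum_le hp hm)] at h5

theorem eval_hz {p : Po 3 k} {d : ℕ} (hp : p.totalDegree ≤ d) {y : Fin 4 → k} (hy : y 0 ≠ 0) :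
    eval y (hz d p) = y 0 ^ d * eval (aff y) p := by
  rw [hz, map_sum, eval_eq', Finset.mul_sum]
  apply Finset.sum_congr rfl
  intro m hm
  rw [map_mul, map_mul, map_pow, map_prod, eval_C, eval_X]
  have e1 : ∏ i : Fin 3, (eval y) ((X i.succ : Po 4 k) ^ m i) = ∏ i : Fin 3, y i.succ ^ m i := by
    apply Finset.prod_congr rfl
    intro i _
    rw [map_pow, eval_X]
  have e2 : ∏ i : Fin 3, aff y i ^ m i = (∏ i : Fin 3, y i.succ ^ m i) /
      y 0 ^ (∑ i : Fin 3, m i) := by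
    rw [← Finset.prod_pow_eq_pow_sum, ← Finset.prod_div_distrib]
    apply Finset.prod_congr rfl
    intro i _
    exact div_pow _ _ _
  rw [e1, e2]
  have e3 : y 0 ^ d = y 0 ^ (d - ∑ i : Fin 3, m i) * y 0 ^ (∑ i : Fin 3, m i) := by
    rw [← pow_add, Nat.sub_add_cancel (sum_le hp hm)]
  rw [e3]
  have h4 : y 0 ^ (∑ i : Fin 3, m i) ≠ 0 := pow_ne_zero _ hy
  field_simp

theorem aff_cons (w : Fin 3 → k) : aff (Fin.cons 1 w : Fin 4 → k) = w := by
  funext i
  rw [aff, Fin.cons_succ, Fin.cons_zero, div_one]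

theorem dh_hz [Infinite k] {p : Po 3 k} {d : ℕ} (hp : p.totalDegree ≤ d) : dh (hz d p) = p := by
  apply MvPolynomial.funext
  intro w
  rw [eval_dh, eval_hz hp (by rw [Fin.cons_zero]; exact one_ne_zero), Fin.cons_zero, one_pow,
    one_mul, aff_cons]

/-- the homogenization of a map -/
noncomputable def hzt (d : ℕ) (f : Tup 3 k) : Tup 4 k := Fin.cons (X 0 ^ d) fun i => hz d (f i)

variable {f : Tup 3 k} {d : ℕ}

theorem hzt_hom (hf : ∀ i, (f i).totalDegree ≤ d) (i : Fin 4) : (hzt d f i).IsHomogeneous d := by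
  refine Fin.cases ?_ (fun j => ?_) i
  · have h2 := (isHomogeneous_X k (0 : Fin 4)).pow d
    rwa [one_mul] at h2
  · exact hz_hom (hf j)

theorem pmap_hzt_zero (y : Fin 4 → k) : pmap (hzt d f) y 0 = y 0 ^ d := by
  change eval y (X 0 ^ d) = _
  rw [map_pow, eval_X]

theorem aff_hzt (hf : ∀ i, (f i).totalDegree ≤ d) {y : Fin 4 → k} (hy : y 0 ≠ 0) :
    aff (pmap (hzt d f) y) = pmap f (aff y) := by
  funext i
  rw [aff, pmap_hzt_zero]
  change eval y (hz d (f i)) / y 0 ^ d = eval (aff y) (f i)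
  rw [eval_hz (hf i) hy, mul_div_cancel_left₀ _ (pow_ne_zero d hy)]

theorem iter_hzt (hf : ∀ i, (f i).totalDegree ≤ d) {y : Fin 4 → k} (hy : y 0 ≠ 0) (n : ℕ) :
    (pmap (hzt d f))^[n] y 0 = y 0 ^ d ^ n ∧
      aff ((pmap (hzt d f))^[n] y) = (pmap f)^[n] (aff y) := by
  induction n with
  | zero => exact ⟨by rw [pow_zero, pow_one]; rfl, rfl⟩
  | succ n ih =>
    have h1 : (pmap (hzt d f))^[n] y 0 ≠ 0 := by
      rw [ih.1]
      exact pow_ne_zero _ hy
    rw [Function.iterate_succ_apply', Function.iterate_succ_apply', pmap_hzt_zero,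
      aff_hzt hf h1, ih.1, ih.2, pow_succ, pow_mul]
    exact ⟨rfl, rfl⟩

theorem dh_aeval [Infinite k] (hf : ∀ i, (f i).totalDegree ≤ d) (q : Po 4 k) :
    dh (aeval (hzt d f) q) = aeval f (dh q) := by
  have h : (dh.comp (aeval (hzt d f)) : Po 4 k →ₐ[k] Po 3 k) = (aeval f).comp dh := by
    apply algHom_ext
    intro i
    rw [AlgHom.comp_apply, AlgHom.comp_apply, aeval_X]
    refine Fin.cases ?_ (fun j => ?_) i
    · change dh (X 0 ^ d : Po 4 k) = aeval f (dh (X 0 : Po 4 k))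
      have e1 : (dh : Po 4 k →ₐ[k] Po 3 k) (X 0) = 1 := by
        unfold dh
        rw [aeval_X]
        rfl
      rw [map_pow, e1, one_pow, map_one]
    · change dh (hz d (f j)) = aeval f (dh (X j.succ : Po 4 k))
      have e2 : (dh : Po 4 k →ₐ[k] Po 3 k) (X j.succ) = X j := by
        unfold dh
        rw [aeval_X]
        rfl
      rw [dh_hz (hf j), e2, aeval_X]
  exact DFunLike.congr_fun h q

theorem dh_it [Infinite k] (hf : ∀ i, (f i).totalDegree ≤ d) (n : ℕ) :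
    dh (it (hzt d f) n 0) = 1 ∧ ∀ i : Fin 3, dh (it (hzt d f) n i.succ) = it f n i := by
  have h1 : ∀ (w : Fin 3 → k) (i : Fin 4), eval w (dh (it (hzt d f) n i)) =
      (pmap (hzt d f))^[n] (Fin.cons 1 w : Fin 4 → k) i := by
    intro w i
    rw [eval_dh, ← pmap_it]
    rfl
  have h2 : ∀ w : Fin 3 → k, (Fin.cons 1 w : Fin 4 → k) 0 ≠ 0 := fun w => by
    rw [Fin.cons_zero]
    exact one_ne_zero
  constructor
  · apply MvPolynomial.funext
    intro w
    rw [h1, (iter_hzt hf (h2 w) n).1, Fin.cons_zero, one_pow, map_one]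
  · intro i
    apply MvPolynomial.funext
    intro w
    have h3 := congrFun (iter_hzt hf (h2 w) n).2 i
    rw [aff, (iter_hzt hf (h2 w) n).1, Fin.cons_zero, one_pow, div_one, aff_cons] at h3
    rw [h1, h3, ← pmap_it]
    rfl

end homog

/-- polynomial self-maps of affine 3-space with small topological degree -/
theorem n3aff (f : Tup 3 Qb) (b : Po 3 Qb)
    (hinj : Function.Injective (aeval f : Po 3 Qb →ₐ[Qb] Po 3 Qb)) (hinv : NoInv f) (e : ℕ)
    (he : 1 ≤ e)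
    (hpre : ∃ c : Po 3 Qb, c ≠ 0 ∧ ∀ y : Fin 3 → Qb, eval y c ≠ 0 →
      ∀ S : Finset (Fin 3 → Qb), (∀ x ∈ S, pmap f x = y) → S.card ≤ e)
    (c : ℝ) (hc : (e : ℝ) < c)
    (hgrow : ∀ N, ∃ n ≥ N, ∃ i, c ^ n ≤ ((it f n i).totalDegree : ℝ)) (hb : b ≠ 0) :
    ∃ x : Fin 3 → Qb, (∀ n : ℕ, eval ((pmap f)^[n] x) b ≠ 0) ∧ DenseOrbit f x := by
  classical
  set d : ℕ := deg f + 1 with hd
  have hf : ∀ i, (f i).totalDegree ≤ d := fun i => (totalDegree_le_deg f i).trans (Nat.le_succ _)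
  set F : Tup 4 Qb := hzt d f with hFdef
  have hF : ∀ i, (F i).IsHomogeneous d := hzt_hom hf
  have hdom : ∀ (m : ℕ) (q : Po 4 Qb), q.IsHomogeneous m → aeval F q = 0 → q = 0 := by
    intro m q hq h0
    by_contra hq0
    have h1 := dh_aeval hf q
    rw [← hFdef, h0, map_zero] at h1
    have h2 : dh q = 0 := by
      apply hinj
      rw [map_zero]
      exact h1.symm
    exact dh_ne hq hq0 h2
  have hinv' : ∀ (m : ℕ) (P Q : Po 4 Qb), P.IsHomogeneous m → Q.IsHomogeneous m → Q ≠ 0 →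
      aeval F P * Q = aeval F Q * P → ∃ c : Qb, P = C c * Q := by
    intro m P Q hP hQ hQ0 hPQ
    have hQ' : dh Q ≠ 0 := dh_ne hQ hQ0
    have h1 := congrArg (dh : Po 4 Qb →ₐ[Qb] Po 3 Qb) hPQ
    rw [map_mul, map_mul, hFdef, dh_aeval hf, dh_aeval hf] at h1
    by_contra hcon
    push Not at hcon
    apply hinv
    refine ⟨dh P, dh Q, hQ', fun s hs => ?_, h1⟩
    have h2 : (P - C s * Q).IsHomogeneous m := by
      have h3 := (isHomogeneous_C (Fin 4) s).mul hQ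
      rw [zero_add] at h3
      exact hP.sub h3
    have h4 : P - C s * Q = 0 := by
      by_contra h5
      apply dh_ne h2 h5
      have h6 : dh (C s : Po 4 Qb) = C s := AlgHom.commutes dh s
      rw [map_sub, map_mul, hs, h6, sub_self]
    exact hcon s (sub_eq_zero.mp h4)
  have hpre' : ∃ c : Po 4 Qb, c ≠ 0 ∧ ∀ y : Fin 4 → Qb, eval y c ≠ 0 →
      ∀ S : Finset (Fin 4 → Qb), (∀ x ∈ S, pmap F x = y) →
      (∀ x ∈ S, ∀ x' ∈ S, ∀ t : Qb, (∀ i, x' i = t * x i) → x' = x) → S.card ≤ e := by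
    obtain ⟨c', hc', hpre⟩ := hpre
    obtain ⟨P, D, hP, hPy⟩ := Al.hmg Qb c' hc'
    refine ⟨X 0 * P, mul_ne_zero (X_ne_zero 0) hP, fun y hy S hS hS' => ?_⟩
    rw [map_mul, eval_X] at hy
    have hy0 := left_ne_zero_of_mul hy
    have hyP := right_ne_zero_of_mul hy
    rw [hPy y hy0] at hyP
    have hx0 : ∀ x ∈ S, x 0 ≠ 0 := by
      intro x hx h0
      have h1 := congrFun (hS x hx) 0
      rw [hFdef, pmap_hzt_zero, h0, zero_pow (by omega)] at h1
      exact hy0 h1.symm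
    have hinjS : Set.InjOn (aff : (Fin 4 → Qb) → Fin 3 → Qb) (S : Set (Fin 4 → Qb)) := by
      intro x hx x' hx' h1
      apply Eq.symm
      apply hS' x hx x' hx' (x' 0 / x 0)
      intro i
      refine Fin.cases ?_ (fun j => ?_) i
      · rw [div_mul_cancel₀ _ (hx0 x hx)]
      · have h2 := congrFun h1 j
        rw [aff, aff, div_eq_div_iff (hx0 x hx) (hx0 x' hx')] at h2
        rw [div_mul_eq_mul_div, eq_div_iff (hx0 x hx)]
        linear_combination -h2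
    rw [← Finset.card_image_of_injOn hinjS]
    apply hpre (aff y) (right_ne_zero_of_mul hyP)
    intro w hw
    obtain ⟨x, hx, rfl⟩ := Finset.mem_image.1 hw
    rw [← aff_hzt hf (hx0 x hx), ← hFdef, hS x hx]
  have hgrow' : ∀ N, ∃ n ≥ N, ∀ (G : Tup 4 Qb) (h : Po 4 Qb) (a : ℕ),
      (∀ i, it F n i = h * G i) → (∀ i, (G i).IsHomogeneous a) → c ^ n ≤ (a : ℝ) := by
    intro N
    obtain ⟨n, hn, i, hi⟩ := hgrow N
    refine ⟨n, hn, fun G h a hG ha => hi.trans ?_⟩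
    obtain ⟨h1, h2⟩ := dh_it hf n
    rw [← hFdef] at h1 h2
    rw [hG 0, map_mul] at h1
    have h3 : IsUnit (dh h) := IsUnit.of_mul_eq_one _ h1
    obtain ⟨u, hu⟩ : ∃ u : Qb, dh h = C u := by
      rw [MvPolynomial.isUnit_iff_eq_C_of_isReduced] at h3
      obtain ⟨u, -, hu⟩ := h3
      exact ⟨u, hu⟩
    have h4 : it f n i = C u * dh (G i.succ) := by
      rw [← h2 i, hG, map_mul, hu]
    have h5 : (it f n i).totalDegree ≤ a := by
      rw [h4]
      refine (totalDegree_mul _ _).trans ?_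
      rw [totalDegree_C, zero_add]
      exact (totalDegree_dh_le _).trans (ha _).totalDegree_le
    exact_mod_cast h5
  obtain ⟨P, D, hP, hPy⟩ := Al.hmg Qb b hb
  obtain ⟨x, hx, hx0, hdense⟩ := n3proj F (X 0 * P) d (by omega) hF hdom hinv' e he hpre' c hc
    hgrow' (mul_ne_zero (X_ne_zero 0) hP)
  have hxx0 : x 0 ≠ 0 := by
    have h1 := hx 0
    rw [map_mul, eval_X] at h1
    exact left_ne_zero_of_mul h1
  refine ⟨aff x, fun n => ?_, fun q hq => ?_⟩
  · have h1 := hx n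
    rw [map_mul, eval_X] at h1
    have h2 := right_ne_zero_of_mul h1
    rw [hPy _ (left_ne_zero_of_mul h1), hFdef, (iter_hzt hf hxx0 n).2] at h2
    exact right_ne_zero_of_mul h2
  · by_contra hq0
    obtain ⟨P', D', hP', hPy'⟩ := Al.hmg Qb q hq0
    apply hP'
    apply hdense
    intro n
    have h1 : (pmap F)^[n] x 0 ≠ 0 := by
      rw [hFdef, (iter_hzt hf hxx0 n).1]
      exact pow_ne_zero _ hxx0
    rw [hPy' _ h1, hFdef, (iter_hzt hf hxx0 n).2, hq n, mul_zero]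

end Pool.Agent.H8.TD
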