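import Pool.Agent.H8.TD.Core

/-!
# Zariski dense orbits in dimension three: the core, part 2
-/

set_option autoImplicit false

open MvPolynomial
open Pool.Agent.H12.ZD (pmap v O Res DenseOrbit NoInv)
open Pool.Agent.H18.HIT Pool.Agent.H8.HIT
open Pool.Agent.H20.HIT (hom_eval)
open Pool.Agent.H8.P2 (Lp Lm pmap_Lp Lp_ne Lm_ne Lp_Lm Lm_Lp comp_Lm_Lp comp_Lp_Lm comp_conj
  mem_vanT prime_conj star_conj tot_conj star tot cone iter_conj)
open Pool.Agent.H8.ZA (HFam Const NA sz)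

namespace Pool.Agent.H8.TD

/-- the points of the orbit of a point with slow growth cannot be too high -/
theorem contra {F : Tup 4 Qb} {k : ℕ} (hk : 1 ≤ k) {m : ℕ} {e : ℕ} (he : 1 ≤ e) {κ : ℝ}
    (hκe : 2 * (e : ℝ) ^ m < κ) {K : IntermediateField ℚ Qb} (F' : HFam K) {x : Fin 4 → Qb}
    (hgrow : ∀ j, F'.ht (aff ((pmap F)^[m * 0] x)) ≤ F'.ht (aff ((pmap F)^[m * j] x)) ∧
      κ / 2 * F'.ht (aff ((pmap F)^[m * j] x)) ≤ F'.ht (aff ((pmap F)^[m * (j + 1)] x)))
    (hpos : 0 < F'.ht (aff ((pmap F)^[m * 0] x))) {M : ℕ}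
    (hslow : ∀ n : ℕ, ∃ c : ℝ, ∀ l, F'.ht (aff ((pmap (it F k))^[n + l] x)) ≤
      M * ((e ^ k : ℕ) : ℝ) ^ n * F'.ht (aff ((pmap (it F k))^[l] x)) + c) : False := by
  have he' : (1 : ℝ) ≤ e := by exact_mod_cast he
  apply no_slow' (fun j => F'.ht (aff ((pmap F)^[m * j] x))) (κ := κ / 2) (E := (e : ℝ) ^ m)
    (one_le_pow₀ he') (by linarith) hpos hgrow hk (M := M)
  intro i
  obtain ⟨c, hc⟩ := hslow (m * i)
  refine ⟨c, fun j => ?_⟩
  have h1 := hc (m * j)
  rw [pmap_it_iterate, pmap_it_iterate] at h1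
  have h2 : k * (m * i + m * j) = m * (k * (i + j)) := by ring
  have h3 : k * (m * j) = m * (k * j) := by ring
  have h4 : ((e ^ k : ℕ) : ℝ) ^ (m * i) = ((e : ℝ) ^ m) ^ (k * i) := by
    push_cast
    rw [← pow_mul, ← pow_mul]
    congr 1
    ring
  rw [h2, h3, h4] at h1
  exact h1

/-- the first heights and the recursion give growth -/
theorem start {h : ℕ → ℝ} {κ β c₀ A B C a : ℝ} (hκ : 2 < κ) (hβ : 0 ≤ β)
    (hβκ : 8 * β ≤ κ ^ 2) (ha : 27 * κ ≤ a)
    (hrec : ∀ j, κ * h (j + 1) ≤ h (j + 2) + β * h j + c₀)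
    (hA0 : |h 0 - A| ≤ B) (hA1 : |h 1 - a * A| ≤ C)
    (hA : 3 * B + 2 * C + 2 * |c₀| + 1 ≤ A) :
    0 < h 0 ∧ ∀ j, h 0 ≤ h j ∧ κ / 2 * h j ≤ h (j + 1) := by
  have hB : 0 ≤ B := (abs_nonneg _).trans hA0
  have hC : 0 ≤ C := (abs_nonneg _).trans hA1
  have hc := abs_nonneg c₀
  obtain ⟨h1, h2⟩ := abs_le.mp hA0
  obtain ⟨h3, h4⟩ := abs_le.mp hA1
  have h0 : 0 < h 0 := by linarith
  have ha' : 54 ≤ a := by linarith
  refine ⟨h0, grow h hκ hβ hβκ hrec h0 (by linarith) ?_⟩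
  have h5 : a * (h 0 - B) ≤ a * A := mul_le_mul_of_nonneg_left (by linarith) (by linarith)
  have h6 : κ / 2 * h 0 ≤ a / 2 * h 0 := mul_le_mul_of_nonneg_right (by linarith) h0.le
  have h7 : a * B + C ≤ a / 2 * h 0 := by
    have h8 : a / 2 * (2 * B + 2 * C) ≤ a / 2 * h 0 :=
      mul_le_mul_of_nonneg_left (by linarith) (by linarith)
    have h9 : 1 * C ≤ a * C := mul_le_mul_of_nonneg_right (by linarith) hC
    linarith
  linarith

/-- **the core**: homogeneous maps in four variables with few preimages and large growth -/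
theorem core3 (F : Tup 4 Qb) {d : ℕ} (hd : 2 ≤ d) (hF : ∀ i, (F i).IsHomogeneous d)
    (hinjF : Function.Injective (aeval F : Po 4 Qb →ₐ[Qb] Po 4 Qb)) (hinv : NoInv F) (e : ℕ)
    (he : 1 ≤ e)
    (hpre : ∃ c : Po 4 Qb, c ≠ 0 ∧ ∀ y : Fin 4 → Qb, eval y c ≠ 0 →
      ∀ S : Finset (Fin 4 → Qb), (∀ x ∈ S, pmap F x = y) →
      (∀ x ∈ S, ∀ x' ∈ S, ∀ t : Qb, (∀ i, x' i = t * x i) → x' = x) → S.card ≤ e)
    (c : ℝ) (hc : (e : ℝ) < c)
    (hgrow : ∀ N, ∃ n ≥ N, ∀ (G : Tup 4 Qb) (h : Po 4 Qb) (a : ℕ), (∀ i, it F n i = h * G i) →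
      (∀ i, (G i).IsHomogeneous a) → c ^ n ≤ (a : ℝ)) (b : Po 4 Qb) (hb : b ≠ 0) :
    ∃ x : Fin 4 → Qb, (∀ n : ℕ, eval ((pmap F)^[n] x) b ≠ 0) ∧
      (∀ n : ℕ, (pmap F)^[n] x ≠ 0) ∧ DenseOrbit F x := by
  classical
  obtain ⟨τ, G, a', hdata, hfac⟩ := exists_data F (by omega) hF hinjF e hpre
  obtain ⟨m, κ, β, b₁, S₁, hm, hb₁, hβ, hκe, hβκ, hκa, hrec⟩ := hdata.recursion he c hc
    (fun N => by
      obtain ⟨n, hn, h1⟩ := hgrow N
      obtain ⟨h, hh⟩ := hfac n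
      exact ⟨n, hn, h1 (G n) h (a' n) hh (hdata.hom n)⟩)
  have hGm0 : G m 0 ≠ 0 := by
    intro h0
    apply hdata.ne m
    rw [h0, map_zero]
  obtain ⟨θ₁, Φ₁, Δ₁, R₁, hprim₁⟩ := All.pel _ Qb F hinjF
  have hcov := All.cve 4 Qb F θ₁ Φ₁ Δ₁ R₁ hinjF hprim₁
  obtain ⟨p, k, a, H, hp, hk, hcovG, hinj, hdegG, hconj, hav⟩ := setup F (b * X 0 * b₁)
    Φ₁.natDegree (Pool.Agent.H8.P2.natDegree_pos hprim₁) hcov (mul_ne_zero (mul_ne_zero hb (X_ne_zero 0)) hb₁)
  have hconjT : ∀ z, pmap (it F k) (lam p a z) = lam p a (pmap (flQ p H) z) := by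
    intro z
    rw [pmap_it]
    exact hconj z
  have hT : ∀ i, (it F k i).IsHomogeneous (d ^ k) := it_hom hF k
  have hD : 2 ≤ d ^ k := hd.trans (Nat.le_self_pow (by omega) d)
  have hNT : NoInv (it F k) := All.nit 4 Qb F k hinjF hk hinv
  have hinvG : NoInv (flQ p H) := by
    apply noInv_conj (it F k) (flQ p H) (fun i => (a i : Qb)) (Pool.Agent.H8.P2.pp_ne p) _ hNT
    intro z
    exact hconjT z
  obtain ⟨c₁, hc₁, hint⟩ := All.igc 4 Qb (flQ p H) hinj
  have hB₀ : aeval (flQ p H) c₁ ≠ 0 := by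
    intro h0
    exact hc₁ ((inj_iff _).mp hinj c₁ h0)
  obtain ⟨b₂, hb₂, hcan⟩ := All.can 4 Qb (flQ p H) (aeval (flQ p H) c₁) hinj hinvG hB₀
  obtain ⟨θ, Φ, Δ, R, hprim⟩ := All.pel 4 Qb (flQ p H) hinj
  obtain ⟨y, hy, hyb⟩ := core2 p hp H (c₁ * b₂ * aeval (Lp p a) (G m 0 * X 0))
    (mul_ne_zero (mul_ne_zero hc₁ hb₂) (Lp_ne p a (mul_ne_zero hGm0 (X_ne_zero 0)))) hinj
    θ Φ Δ R hprim
  set x₀ : Fin 4 → Qb := lam p a (cZ y) with hx₀
  rw [map_mul] at hy
  have hy1 := right_ne_zero_of_mul hy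
  rw [Pool.Agent.H18.HIT.eval_aeval, pmap_Lp, map_mul, eval_X] at hy1
  have hx₀G : eval x₀ (G m 0) ≠ 0 := left_ne_zero_of_mul hy1
  have hx₀0 : x₀ 0 ≠ 0 := right_ne_zero_of_mul hy1
  obtain ⟨cL, hcL, hcL'⟩ := Al.lav Qb 4 (G m) x₀ (hdata.cop m) ⟨0, hx₀G⟩
  have h01 : (0 : Fin 4) ≠ 1 := by decide
  have hcM : (C (x₀ 0) * X 1 - C (x₀ 1) * X 0 : Po 4 Qb) ≠ 0 := by
    intro h0
    have h1 := congrArg (coeff (Finsupp.single 1 1)) h0
    rw [coeff_sub, coeff_C_mul, coeff_C_mul, coeff_X, coeff_X, if_pos rfl, if_neg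
      (fun h => h01 ((Finsupp.single_left_inj one_ne_zero).mp h)), mul_zero, sub_zero, mul_one,
      coeff_zero] at h1
    exact hx₀0 h1
  obtain ⟨b', hb', hbt⟩ := hyb (cL * (C (x₀ 0) * X 1 - C (x₀ 1) * X 0) * (G m 0) * X 0)
    (mul_ne_zero (mul_ne_zero (mul_ne_zero hcL hcM) hGm0) (X_ne_zero 0))
  rw [map_mul, map_mul, map_mul] at hb'
  have hbL := hcL' (cZ b') (left_ne_zero_of_mul (left_ne_zero_of_mul (left_ne_zero_of_mul hb')))
  have hbM := right_ne_zero_of_mul (left_ne_zero_of_mul (left_ne_zero_of_mul hb'))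
  have hbG := right_ne_zero_of_mul (left_ne_zero_of_mul hb')
  have hb0 := right_ne_zero_of_mul hb'
  rw [eval_X] at hb0
  rw [map_sub, map_mul, map_mul, eval_C, eval_C, eval_X, eval_X] at hbM
  set pp : Qb := ((p : ℕ) : Qb) ^ 2 with hpp
  have hpp0 : pp ≠ 0 := Pool.Agent.H8.P2.pp_ne p
  set w : Fin 4 → Qb := fun i => pp * cZ b' i with hw
  have hxt : ∀ t : ℤ, lam p a (cZ fun i => y i + t * b' i) = fun i => x₀ i + (t : Qb) * w i := by
    intro t
    funext i
    simp only [lam, cZ, hx₀, hw, hpp]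
    push_cast
    ring
  -- the number field
  obtain ⟨K, hKfin, hK⟩ := exists_K (S₁ ∪ ((Finset.univ.biUnion fun i => (F i).coeffs) ∪
    (Finset.univ.image x₀ ∪ (Finset.univ.image w ∪ ((ln x₀ w (G m 0)).coeffs ∪
      (ln x₀ w (X 0)).coeffs)))))
  obtain ⟨F'⟩ := Pool.Agent.H8.ZA.F.PFX K hKfin
  have hKS : ∀ x ∈ S₁, x ∈ K := fun x hx => hK x (Finset.mem_union_left _ hx)
  have hKF : ∀ i, ∀ c ∈ (F i).coeffs, c ∈ K := fun i c hc =>
    hK c (Finset.mem_union_right _ (Finset.mem_union_left _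
      (Finset.mem_biUnion.2 ⟨i, Finset.mem_univ i, hc⟩)))
  have hKx : ∀ i, x₀ i ∈ K := fun i =>
    hK _ (Finset.mem_union_right _ (Finset.mem_union_right _ (Finset.mem_union_left _
      (Finset.mem_image_of_mem _ (Finset.mem_univ i)))))
  have hKw : ∀ i, w i ∈ K := fun i =>
    hK _ (Finset.mem_union_right _ (Finset.mem_union_right _ (Finset.mem_union_right _
      (Finset.mem_union_left _ (Finset.mem_image_of_mem _ (Finset.mem_univ i))))))
  have hKG : ∀ j, (ln x₀ w (G m 0)).coeff j ∈ K := coeff_mem _ fun x hx =>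
    hK _ (Finset.mem_union_right _ (Finset.mem_union_right _ (Finset.mem_union_right _
      (Finset.mem_union_right _ (Finset.mem_union_left _ hx)))))
  have hKX : ∀ j, (ln x₀ w (X 0)).coeff j ∈ K := coeff_mem _ fun x hx =>
    hK _ (Finset.mem_union_right _ (Finset.mem_union_right _ (Finset.mem_union_right _
      (Finset.mem_union_right _ (Finset.mem_union_right _ hx)))))
  obtain ⟨c₀, hc₀⟩ := hrec K F' hKS
  -- the heights along the line
  obtain ⟨cA, hcA⟩ := ht_line (G m) (a' m) (hdata.hom m) x₀ w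
    (by
      rw [hw, eval_smul (hdata.hom m 0)]
      exact mul_ne_zero (pow_ne_zero _ hpp0) hbG)
    (by
      intro t
      obtain ⟨i, hi⟩ := hbL (t * pp)
      refine ⟨i, ?_⟩
      have h1 : (fun j => x₀ j + t * w j) = fun j => x₀ j + t * pp * cZ b' j := by
        funext j
        rw [hw]
        ring
      rw [h1]
      exact hi) K F' hKG
  obtain ⟨cB, hcB⟩ := ht_line (fun i => X i) 1 (fun i => isHomogeneous_X Qb i) x₀ w
    (by
      rw [eval_X, hw]
      exact mul_ne_zero hpp0 hb0)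
    (by
      intro t
      by_contra hcon
      push Not at hcon
      have h1 := hcon 0
      have h2 := hcon 1
      rw [eval_X] at h1 h2
      apply hbM
      have h3 : pp * (x₀ 0 * cZ b' 1 - x₀ 1 * cZ b' 0) = x₀ 0 * w 1 - x₀ 1 * w 0 := by
        rw [hw]
        ring
      have h4 : x₀ 0 * w 1 - x₀ 1 * w 0 = 0 := by
        have h5 : x₀ 0 = -(t * w 0) := eq_neg_of_add_eq_zero_left h1
        have h6 : x₀ 1 = -(t * w 1) := eq_neg_of_add_eq_zero_left h2
        rw [h5, h6]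
        ring
      rw [h4] at h3
      exact (mul_eq_zero.mp h3).resolve_left hpp0) K F' hKX
  -- the point
  obtain ⟨Mb, hMb⟩ := exists_nat_gt (Real.exp (3 * |cB| + 2 * |cA| + 2 * |c₀| + 1))
  obtain ⟨t, htM, z, P, hzt, hzc, hz, hzΔ, hP, hPvan, hgal, hI⟩ := hbt Mb
  rw [map_mul, map_mul] at hz
  set x : Fin 4 → Qb := lam p a (cO z) with hx
  have hxe : x = fun i => x₀ i + (t : Qb) * w i := by
    rw [hx, hzc]
    exact hxt t
  have hav' : ∀ n, eval ((pmap F)^[n] x) b ≠ 0 ∧ (pmap F)^[n] x 0 ≠ 0 ∧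
      eval ((pmap F)^[n] x) b₁ ≠ 0 := by
    intro n
    have h1 := hav n z
    rw [map_mul, map_mul, eval_X] at h1
    exact ⟨left_ne_zero_of_mul (left_ne_zero_of_mul h1),
      right_ne_zero_of_mul (left_ne_zero_of_mul h1), right_ne_zero_of_mul h1⟩
  have hKorb : ∀ n i, (pmap F)^[n] x i ∈ K := by
    apply orbit_mem F hKF
    intro i
    rw [hxe]
    exact add_mem (hKx i) (mul_mem (intCast_mem K t) (hKw i))
  -- reduced iterates
  have hred : ∀ n l, aff (pmap (G n) ((pmap F)^[l] x)) = aff ((pmap F)^[n + l] x) := by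
    intro n l
    obtain ⟨h, hh⟩ := hfac n
    have h1 : (pmap F)^[n + l] x = fun i =>
        eval ((pmap F)^[l] x) h * pmap (G n) ((pmap F)^[l] x) i := by
      rw [Function.iterate_add_apply, ← pmap_it]
      funext i
      rw [pmap, hh i, map_mul]
      rfl
    have h2 : eval ((pmap F)^[l] x) h ≠ 0 := by
      intro h0
      apply (hav' (n + l)).2.1
      rw [h1]
      simp only
      rw [h0, zero_mul]
    rw [h1, aff_smul h2]
  have ht0 : t ≠ 0 := by
    rintro rfl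
    rw [abs_zero] at htM
    exact absurd htM (by have := Int.natCast_nonneg Mb; omega)
  set A : ℝ := F'.arch.card * Real.log |(t : ℝ)| with hA
  have hstart := start (h := fun j => F'.ht (aff ((pmap F)^[m * j] x))) (κ := κ) (β := β)
    (c₀ := c₀) (A := A) (B := |cB|) (C := |cA|) (a := a' m)
    (by
      have h1 : (1 : ℝ) ≤ (e : ℝ) ^ m := one_le_pow₀ (by exact_mod_cast he)
      linarith) hβ hβκ hκa
    (by
      intro j
      have h1 := hc₀ ((pmap F)^[m * j] x) (fun i => hKorb _ i) (hav' _).2.2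
      rw [hred, hred] at h1
      have h2 : m + m * j = m * (j + 1) := by ring
      have h3 : m + m + m * j = m * (j + 2) := by ring
      rw [h2, h3] at h1
      exact h1)
    (by
      have h1 := hcB t ht0 (by
        have h2 : x 0 ≠ 0 := (hav' 0).2.1
        rw [hxe] at h2
        rw [eval_X]
        exact h2)
      rw [← hxe, pmap_X, Nat.cast_one, one_mul] at h1
      rw [Nat.mul_zero]
      exact h1.trans (le_abs_self _))
    (by
      have h1 := hcA t ht0 (by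
        rw [← hxe]
        obtain ⟨h, hh⟩ := hfac m
        intro h0
        apply (hav' m).2.1
        rw [← pmap_it, pmap, hh 0, map_mul, h0, mul_zero])
      rw [← hxe] at h1
      have h2 := hred m 0
      rw [Function.iterate_zero, id, Nat.add_zero] at h2
      rw [h2] at h1
      rw [Nat.mul_one]
      exact h1.trans (le_abs_self _))
    (by
      have h1 : 3 * |cB| + 2 * |cA| + 2 * |c₀| + 1 ≤ Real.log |(t : ℝ)| := by
        have h2 : (Mb : ℝ) < |(t : ℝ)| := by exact_mod_cast htM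
        rw [Real.le_log_iff_exp_le ((Nat.cast_nonneg Mb).trans_lt h2)]
        exact (hMb.trans h2).le
      have h3 : (1 : ℝ) ≤ F'.arch.card := by
        exact_mod_cast F'.arch_nonempty.card_pos
      have h4 : 0 ≤ Real.log |(t : ℝ)| := le_trans (by positivity) h1
      have h5 : 1 * Real.log |(t : ℝ)| ≤ A := mul_le_mul_of_nonneg_right h3 h4
      linarith)
  obtain ⟨hpos, hgr⟩ := hstart
  refine ⟨x, fun n => (hav' n).1, fun n h0 => (hav' n).2.1 (by rw [h0]; rfl), ?_⟩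
  apply dense_of_conj F p k a H hconj
  by_contra hne
  by_cases hcase : ∀ W : Po 4 Qb, Irreducible W → ∃ c ∈ van (flQ p H) (cO z), ¬ W ∣ c
  · obtain ⟨S, hS, S', hS', hS0, hS0', hrel⟩ := All.avo 4 Qb _ hne hcase
    have hrel' : IsRelPrime (aeval (Lm p a) S) (aeval (Lm p a) S') := by
      intro q hq1 hq2
      have h1 : aeval (Lp p a) q ∣ S := by
        have := map_dvd (aeval (Lp p a) : Po 4 Qb →ₐ[Qb] Po 4 Qb) hq1
        rwa [Lp_Lm] at this
      have h2 : aeval (Lp p a) q ∣ S' := by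
        have := map_dvd (aeval (Lp p a) : Po 4 Qb →ₐ[Qb] Po 4 Qb) hq2
        rwa [Lp_Lm] at this
      have h3 := (hrel h1 h2).map (aeval (Lm p a) : Po 4 Qb →ₐ[Qb] Po 4 Qb)
      rwa [Lm_Lp] at h3
    have hprime := prime_conj hconjT (All.prm 4 p H z hp)
    have hstar := star_conj hconjT (fun q hq => star hprim hI hq)
    have htot := tot_conj hconjT (z := cO z) (Δ := Δ)
      (fun w hw hΔ q hq => tot hprim hI hw hΔ hq)
    have hΔT : aeval (Lm p a) Δ ∉ van (it F k) (lam p a (cO z)) := by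
      rw [mem_vanT hconjT, Lp_Lm]
      intro h0
      exact hzΔ (h0 0)
    have hhom : ∀ q ∈ van (it F k) (lam p a (cO z)), ∀ m,
        homogeneousComponent m q ∈ van (it F k) (lam p a (cO z)) :=
      fun q hq m => cone hD hT hprime hstar hΔT htot hq m
    have hlin : ∀ i, (Lp p a i).totalDegree ≤ 1 := by
      intro i
      refine (totalDegree_add _ _).trans (max_le ?_ ?_)
      · rw [totalDegree_C]
        exact Nat.zero_le _
      · refine (totalDegree_mul _ _).trans ?_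
        rw [totalDegree_C, totalDegree_X]
    obtain ⟨θ', Φ', Δ', R', hprim', hΦ', hΔ'⟩ := Al.prc 4 Qb (it F k) (flQ p H) (Lp p a)
      (Lm p a) θ Φ Δ R (comp_Lm_Lp p a) (comp_Lp_Lm p a) (comp_conj hconjT) hlin hprim
    have hΦ'' : Φ'.natDegree ≤ d ^ k * e ^ k := Al.upe 4 Qb F d e k θ' Φ' Δ' R' (by norm_num)
      (by omega) hF hinjF hpre hprim'
    have hΔ'' : Δ' ∉ van (it F k) (lam p a (cO z)) := by
      intro h0
      have h1 := h0 0
      rw [Function.iterate_zero, id, ← pmap_Lp, hΔ'] at h1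
      exact hzΔ h1
    obtain ⟨M, hM⟩ := slow K F' (it F k) (d ^ k) (e ^ k) (by omega) hT (lam p a (cO z)) θ' Φ' Δ' R'
      hprim' hΦ'' hprime hhom (fun q => ⟨hstar q, fun hq => van_aeval hq⟩) hΔ''
      (aeval (Lm p a) S) (aeval (Lm p a) S') (by rw [mem_vanT hconjT, Lp_Lm]; exact hS)
      (by rw [mem_vanT hconjT, Lp_Lm]; exact hS') (Lm_ne p a hS0) (Lm_ne p a hS0') hrel'
      (fun l s => by
        rw [pmap_it_iterate]
        exact hKorb _ _)
      (fun l => by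
        rw [pmap_it_iterate]
        exact (hav' _).2.1)
    exact contra hk he hκe F' hgr hpos hM
  · push Not at hcase
    obtain ⟨W, hW, hdvd⟩ := hcase
    have hprime := All.prm 4 p H z hp
    obtain ⟨Y, hY, hYp⟩ := hprime.exists_mem_prime_of_ne_bot hne
    have hWI : W ∈ van (flQ p H) (cO z) := by
      have h1 : Associated W Y := hW.associated_of_dvd hYp.irreducible (hdvd Y hY)
      obtain ⟨u, hu⟩ := h1.symm
      rw [← hu]
      exact Ideal.mul_mem_right _ _ hY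
    have hiff : ∀ c : Po 4 Qb, c ∈ van (flQ p H) (cO z) ↔ W ∣ c := by
      intro c
      refine ⟨hdvd c, ?_⟩
      rintro ⟨d, rfl⟩
      exact Ideal.mul_mem_right _ _ hWI
    obtain ⟨Z, hZ⟩ := hdvd _ (van_aeval hWI)
    have hWz : eval (cO z) W = 0 := hWI 0
    have hall : ∀ Y : Po 4 Qb, Irreducible Y → Y ∣ Z → Y ∣ aeval (flQ p H) c₁ := by
      intro Y hY hYZ
      by_contra hnd
      obtain ⟨P', hP'Y, hP'⟩ := All.lyo 4 Qb (flQ p H) c₁ W Y (cO z) hinj hint
        (left_ne_zero_of_mul (left_ne_zero_of_mul hz)) hW hWz hY (hZ ▸ hYZ.mul_left W) hnd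
      obtain ⟨σ, hσ1, hσ2, hσ3⟩ := hgal P' hP'
      have hjac := eval_sigma_jac hσ1 hσ3 (jac_fl_ne p H P)
      have hW' := eval_sigma_van hσ1 hσ2 hσ3 hPvan hWI
      apply All.hyp 4 Qb (flQ p H) W Z (cO z)
        (fun n => by rw [flQ_iterate]; exact jac_fl_ne p H _) hW hiff hZ P' hP' hjac hW'
      obtain ⟨d, hd⟩ := hYZ
      rw [hd, map_mul, hP'Y, zero_mul]
    obtain ⟨d, hd⟩ := hcan W Z hW hZ hall
    apply right_ne_zero_of_mul (left_ne_zero_of_mul hz)
    rw [hd, map_mul, hWz, zero_mul]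

end Pool.Agent.H8.TD
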