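import Pool.Agent.H8.TD.Rec2

/-!
# Zariski dense orbits in dimension three: the recursion for the heights
-/

set_option autoImplicit false

open MvPolynomial
open Pool.Agent.H18.HIT
open Pool.Agent.H12.ZD (pmap)
open Pool.Agent.H8.ZA (HFam Const NA sz)

namespace Pool.Agent.H8.TD

theorem eval_mem {K : IntermediateField ℚ Qb} {N : ℕ} (q : Po N Qb) (y : Fin N → Qb)
    (hq : ∀ c ∈ q.coeffs, c ∈ K) (hy : ∀ i, y i ∈ K) : eval y q ∈ K := by
  rw [eval_eq']
  apply sum_mem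
  intro m hm
  apply mul_mem
  · apply hq
    rw [mem_coeffs_iff]
    exact ⟨m, hm, rfl⟩
  · exact prod_mem fun j _ => pow_mem (hy j) _

/-- the height inequality for three functions -/
theorem kin3 (q : Po 3 Qb) (hq : q ≠ 0) (R : Type) [CommRing R] [IsDomain R] [Algebra Qb R]
    [Algebra (Po 3 Qb) R] [Algebra R (K3 Qb)] [IsScalarTower Qb R (K3 Qb)]
    (hinj : Function.Injective (algebraMap R (K3 Qb)))
    (hevR : ∀ y : Fin 3 → Qb, eval y q ≠ 0 → ∃ ev : R →ₐ[Qb] Qb,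
      ∀ p : Po 3 Qb, ev (algebraMap (Po 3 Qb) R p) = eval y p)
    (hnumR : ∀ b : R, b ≠ 0 → ∃ (p : Po 3 Qb) (n : ℕ), p ≠ 0 ∧
      b * algebraMap (Po 3 Qb) R (q ^ n) = algebraMap (Po 3 Qb) R p)
    (A B g : Fin 3 → R) (Q Q' M : ℕ)
    (s t t' : Fin 3 → Qb)
    (hadj : IntermediateField.adjoin Qb (Set.range (fun i => algebraMap R (K3 Qb) (A i)) ∪
      Set.range (fun i => algebraMap R (K3 Qb) (B i))) = ⊤) (hQ : 1 ≤ Q) (hM : 1 ≤ M)
    (hQs : Q ≤ dg Qb {lc s (fun i => algebraMap R (K3 Qb) (A i)),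
      lc t (fun i => algebraMap R (K3 Qb) (B i)), lc t' (fun i => algebraMap R (K3 Qb) (B i))})
    (h1 : Bd Qb (fun i => algebraMap R (K3 Qb) (g i)) (fun i => algebraMap R (K3 Qb) (B i))
      (fun i => algebraMap R (K3 Qb) (B i)) Q')
    (h2 : Bd Qb (fun i => algebraMap R (K3 Qb) (g i)) (fun i => algebraMap R (K3 Qb) (B i))
      (fun i => algebraMap R (K3 Qb) (A i)) M)
    (h3 : ∀ i, ∃ u u' : Fin 3 → Qb, 1 ≤ dg Qb {algebraMap R (K3 Qb) (g i),
      lc u (fun i => algebraMap R (K3 Qb) (B i)), lc u' (fun i => algebraMap R (K3 Qb) (B i))}) :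
    ∃ (b : Po 3 Qb) (S : Finset Qb), b ≠ 0 ∧ ∀ (K' : IntermediateField ℚ Qb) (F : HFam K'),
      (∀ x ∈ S, x ∈ K') → ∃ c : ℝ, ∀ y : Fin 3 → Qb, (∀ i, y i ∈ K') → eval y b ≠ 0 →
        ∃ ev : R →ₐ[Qb] Qb, (∀ p, ev (algebraMap (Po 3 Qb) R p) = eval y p) ∧
          (Q : ℝ) * F.ht (fun i => ev (g i)) ≤ 27 * Q' * F.ht (fun i => ev (A i)) +
            27 * M * F.ht (fun i => ev (B i)) + c := by
  classical
  have hk : ∀ i : Fin 3, ∃ b : R, b ≠ 0 ∧ ∀ (K' : IntermediateField ℚ Qb) (F : HFam K'),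
      ∃ c : ℝ, ∀ ev : R →ₐ[Qb] Qb, ev b ∈ K' → ev b ≠ 0 →
      (Q : ℝ) * F.ht ![ev (g i), 0, 0] ≤
        9 * Q' * F.ht (fun i => ev (A i)) + 9 * M * F.ht (fun i => ev (B i)) + c := by
    intro i
    apply Al.kin R (K3 Qb) A B (g i) Q Q' M s t t' hinj (trdeg_K3 Qb) hadj hQ hM hQs
    · intro u u'
      have h4 := h1 (Pi.single i 1) u u'
      rw [lc_single] at h4
      exact h4
    · intro u u'
      have h4 := h2 (Pi.single i 1) u u'
      rw [lc_single] at h4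
      exact h4
    · exact h3 i
  choose b hb hkey using hk
  choose p n hp hnum using fun i => hnumR (b i) (hb i)
  refine ⟨q * (p 0 * p 1 * p 2), q.coeffs ∪ ((p 0).coeffs ∪ ((p 1).coeffs ∪ (p 2).coeffs)),
    mul_ne_zero hq (mul_ne_zero (mul_ne_zero (hp 0) (hp 1)) (hp 2)), fun K' F hS => ?_⟩
  choose c hc using fun i => hkey i K' F
  refine ⟨c 0 + c 1 + c 2, fun y hy hyb => ?_⟩
  rw [map_mul, map_mul, map_mul] at hyb
  have hq' := left_ne_zero_of_mul hyb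
  have hyb' := right_ne_zero_of_mul hyb
  obtain ⟨ev, hev⟩ := hevR y hq'
  refine ⟨ev, hev, ?_⟩
  have hp' : ∀ i, eval y (p i) ≠ 0 := by
    intro i
    fin_cases i
    · exact left_ne_zero_of_mul (left_ne_zero_of_mul hyb')
    · exact right_ne_zero_of_mul (left_ne_zero_of_mul hyb')
    · exact right_ne_zero_of_mul hyb'
  have hqK : eval y q ∈ K' := eval_mem q y
    (fun x hx => hS x (Finset.mem_union_left _ hx)) hy
  have hpK : ∀ i, eval y (p i) ∈ K' := by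
    intro i
    apply eval_mem (p i) y _ hy
    intro x hx
    apply hS x (Finset.mem_union_right _ _)
    fin_cases i
    · exact Finset.mem_union_left _ hx
    · exact Finset.mem_union_right _ (Finset.mem_union_left _ hx)
    · exact Finset.mem_union_right _ (Finset.mem_union_right _ hx)
  have hb1 : ∀ i, ev (b i) * eval y q ^ n i = eval y (p i) := by
    intro i
    have h4 := congrArg ev (hnum i)
    rw [map_mul, hev, hev, map_pow] at h4
    exact h4
  have hb2 : ∀ i, ev (b i) ≠ 0 := by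
    intro i h0
    have h4 := hb1 i
    rw [h0, zero_mul] at h4
    exact hp' i h4.symm
  have hb3 : ∀ i, ev (b i) ∈ K' := by
    intro i
    have h5 : ev (b i) = eval y (p i) / eval y q ^ n i := by
      rw [← hb1 i, mul_div_cancel_right₀ _ (pow_ne_zero _ hq')]
    rw [h5]
    exact div_mem (hpK i) (pow_mem hqK _)
  have h6 := fun i => hc i ev (hb3 i) (hb2 i)
  have h7 := ht_le_sum F (fun i => ev (g i))
  have h8 := mul_le_mul_of_nonneg_left h7 (Nat.cast_nonneg (α := ℝ) Q)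
  have h9 := h6 0
  have h10 := h6 1
  have h11 := h6 2
  calc (Q : ℝ) * F.ht (fun i => ev (g i)) ≤ Q * F.ht ![ev (g 0), 0, 0] +
        Q * F.ht ![ev (g 1), 0, 0] + Q * F.ht ![ev (g 2), 0, 0] := by
        rw [← mul_add, ← mul_add]
        exact h8
    _ ≤ _ := by linarith

variable {τ : K3 Qb →ₐ[Qb] K3 Qb} {G : ℕ → Tup 4 Qb} {a : ℕ → ℕ} {e : ℕ}

/-- the recursion for the heights -/
theorem Data.recursion (h : Data τ G a e) (he : 1 ≤ e) (c : ℝ) (hec : (e : ℝ) < c)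
    (hgrow : ∀ N, ∃ n ≥ N, c ^ n ≤ (a n : ℝ)) :
    ∃ (m : ℕ) (κ β : ℝ) (b : Po 4 Qb) (S : Finset Qb), 1 ≤ m ∧ b ≠ 0 ∧ 0 ≤ β ∧
      2 * (e : ℝ) ^ m < κ ∧ 8 * β ≤ κ ^ 2 ∧ 27 * κ ≤ a m ∧
      ∀ (K : IntermediateField ℚ Qb) (F : HFam K), (∀ x ∈ S, x ∈ K) → ∃ c₀ : ℝ,
        ∀ y : Fin 4 → Qb, (∀ i, y i ∈ K) → eval y b ≠ 0 →
          κ * F.ht (aff (pmap (G m) y)) ≤
            F.ht (aff (pmap (G (m + m)) y)) + β * F.ht (aff y) + c₀ := by
  obtain ⟨m, M, Y, hm, hM, ⟨s, s', s'', hY⟩, hYM, hgood⟩ := h.numbers he c hec hgrow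
  set q : Po 3 Qb := dh (G m 0) * dh (G (m + m) 0) with hqdef
  have hq : q ≠ 0 := mul_ne_zero (h.ne _) (h.ne _)
  obtain ⟨R, _, _, _, _, _, _, hinj, halg, hevR, hnumR, hfrac⟩ := exists_ring q hq
  choose φ₁ hφ₁ hφ₁' using fun i : Fin 3 => hfrac (dh (G m 0)) (dh (G m i.succ))
    (Dvd.intro _ rfl)
  choose φ₂ hφ₂ hφ₂' using fun i : Fin 3 => hfrac (dh (G (m + m) 0))
    (dh (G (m + m) i.succ)) (Dvd.intro_left _ rfl)
  set x : Fin 3 → R := fun i => algebraMap (Po 3 Qb) R (X i) with hx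
  have e1 : (fun i => algebraMap R (K3 Qb) (φ₁ i)) = ph τ m := by
    funext i
    rw [hφ₁, h.eq]
    rfl
  have e2 : (fun i => algebraMap R (K3 Qb) (φ₂ i)) = ph τ (m + m) := by
    funext i
    rw [hφ₂, h.eq]
    rfl
  have e0 : (fun i => algebraMap R (K3 Qb) (x i)) = xx Qb := by
    funext i
    rw [hx]
    exact halg (X i)
  have e1' : ∀ i, algebraMap R (K3 Qb) (φ₁ i) = ph τ m i := fun i => congrFun e1 i
  have hM1 : 1 ≤ M := by
    obtain ⟨u, u', h1⟩ := Al.ext Qb (K3 Qb) (xx Qb) (ph τ (m + m)) (ph τ m 0) (trdeg_K3 Qb)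
      (fg_K3 Qb) (tr_ph τ m 0) (by
        have := alg_ph τ 0
        rwa [ph_zero] at this) (alg_ph τ (m + m))
    have h2 := hM (Pi.single 0 1) u u'
    rw [lc_single] at h2
    exact h1.trans h2
  suffices H : ∃ (Q U V : ℝ) (b : Po 3 Qb) (S : Finset Qb), 0 < U ∧ 0 ≤ V ∧ b ≠ 0 ∧
      2 * (e : ℝ) ^ m < Q / U ∧ 8 * (V / U) ≤ (Q / U) ^ 2 ∧ 27 * (Q / U) ≤ a m ∧
      ∀ (K' : IntermediateField ℚ Qb) (F : HFam K'), (∀ x ∈ S, x ∈ K') → ∃ c : ℝ,
        ∀ y : Fin 3 → Qb, (∀ i, y i ∈ K') → eval y b ≠ 0 → ∃ ev : R →ₐ[Qb] Qb,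
          (∀ p, ev (algebraMap (Po 3 Qb) R p) = eval y p) ∧
          Q * F.ht (fun i => ev (φ₁ i)) ≤ U * F.ht (fun i => ev (φ₂ i)) +
            V * F.ht (fun i => ev (x i)) + c by
    obtain ⟨Q, U, V, b, S, hU, hV, hb, h1, h2, h3, hkey⟩ := H
    obtain ⟨P, D, hP, hPy⟩ := Al.hmg Qb (b * q) (mul_ne_zero hb hq)
    refine ⟨m, Q / U, V / U, X 0 * P, S, hm, mul_ne_zero (X_ne_zero 0) hP, by positivity, h1, h2,
      h3, fun K F hS => ?_⟩
    obtain ⟨c₁, hc₁⟩ := hkey K F hS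
    refine ⟨c₁ / U, fun y hy hyb => ?_⟩
    rw [map_mul, eval_X] at hyb
    have hy0 := left_ne_zero_of_mul hyb
    have hyP := right_ne_zero_of_mul hyb
    rw [hPy y hy0, map_mul] at hyP
    have hyb' := left_ne_zero_of_mul (right_ne_zero_of_mul hyP)
    have hyq := right_ne_zero_of_mul (right_ne_zero_of_mul hyP)
    rw [hqdef, map_mul] at hyq
    obtain ⟨ev, hev, hineq⟩ := hc₁ (aff y) (fun i => div_mem (hy _) (hy _)) hyb'
    have haff : ∀ (n : ℕ) (φ : Fin 3 → R), eval (aff y) (dh (G n 0)) ≠ 0 →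
        (∀ i : Fin 3, φ i * algebraMap (Po 3 Qb) R (dh (G n 0)) =
          algebraMap (Po 3 Qb) R (dh (G n i.succ))) →
        (fun i => ev (φ i)) = aff (pmap (G n) y) := by
      intro n φ hn hφ
      funext i
      have h4 := congrArg ev (hφ i)
      rw [map_mul, hev, hev] at h4
      have h5 : ∀ j, pmap (G n) y j = y 0 ^ a n * eval (aff y) (dh (G n j)) := fun j =>
        eval_aff (h.hom n j) hy0
      rw [aff, h5, h5, mul_div_mul_left _ _ (pow_ne_zero _ hy0), eq_div_iff hn]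
      exact h4
    have f1 := haff m φ₁ (left_ne_zero_of_mul hyq) hφ₁'
    have f2 := haff (m + m) φ₂ (right_ne_zero_of_mul hyq) hφ₂'
    have f3 : (fun i => ev (x i)) = aff y := by
      funext i
      rw [hx]
      simp only
      rw [hev, eval_X]
    rw [f1, f2, f3] at hineq
    have hU' : U ≠ 0 := hU.ne'
    have h6 : Q / U * F.ht (aff (pmap (G m) y)) = (Q * F.ht (aff (pmap (G m) y))) / U := by ring
    have h7 : F.ht (aff (pmap (G (m + m)) y)) + V / U * F.ht (aff y) + c₁ / U =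
        (U * F.ht (aff (pmap (G (m + m)) y)) + V * F.ht (aff y) + c₁) / U := by
      field_simp
    rw [h6, h7]
    exact div_le_div_of_nonneg_right hineq hU.le
  rcases hgood with hgood | hgood
  · obtain ⟨g1, g2, g3⟩ := hgood.real (h.pos m) (h.sub m m)
    obtain ⟨s₁, t₁, t₁', hs₁⟩ := h.b5 (m + m)
    obtain ⟨b, S, hb, hkey⟩ := kin3 q hq R hinj hevR hnumR φ₂ x φ₁ (a (m + m)) (a m) M s₁ t₁ t₁'
      (by
        rw [e0, e2, IntermediateField.adjoin_union, adjoin_xx, sup_top_eq])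
      (h.pos _) hM1 (by rw [e0, e2]; exact hs₁) (by rw [e0, e1]; exact h.b2 m)
      (by rw [e0, e1, e2]; exact hM.rot)
      (by
        intro i
        rw [e0, e1' i]
        apply Al.ext Qb (K3 Qb) (xx Qb) (xx Qb) (ph τ m i) (trdeg_K3 Qb) (fg_K3 Qb) (tr_ph τ m i)
        · have := alg_ph τ 0
          rwa [ph_zero] at this
        · have := alg_ph τ 0
          rwa [ph_zero] at this)
    refine ⟨a (m + m), 27 * a m, 27 * M, b, S, ?_, by positivity, hb, ?_, ?_, ?_, hkey⟩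
    · have : (0 : ℝ) < a m := by exact_mod_cast h.pos m
      positivity
    · exact g1
    · rw [mul_div_mul_left _ _ (by norm_num)]
      exact g2
    · exact g3
  · obtain ⟨g1, g2, g3⟩ := hgood.real hM1 hYM
    have hY1 : 1 ≤ Y := Nat.one_le_iff_ne_zero.mpr fun h0 => by
      have h1 := hgood.1
      rw [h0] at h1
      exact Nat.not_lt_zero _ h1
    have hset : ({lc s'' (xx Qb), lc s (ph τ (m + m)), lc s' (ph τ (m + m))} : Set (K3 Qb)) =
        {lc s (ph τ (m + m)), lc s' (ph τ (m + m)), lc s'' (xx Qb)} := by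
      rw [Set.insert_comm, Set.pair_comm (lc s'' (xx Qb))]
    obtain ⟨b, S, hb, hkey⟩ := kin3 q hq R hinj hevR hnumR x φ₂ φ₁ Y (e ^ m * (a m * a m)) M
      s'' s s'
      (by
        rw [e0, e2, IntermediateField.adjoin_union, adjoin_xx, top_sup_eq])
      hY1 hM1 (by
        rw [e0, e2, hset, hY]) (by rw [e1, e2]; exact h.b4 m)
      (by rw [e0, e1, e2]; exact hM)
      (by
        intro i
        rw [e2, e1' i]
        exact Al.ext Qb (K3 Qb) (ph τ (m + m)) (ph τ (m + m)) (ph τ m i) (trdeg_K3 Qb)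
          (fg_K3 Qb) (tr_ph τ m i) (alg_ph τ (m + m)) (alg_ph τ (m + m)))
    refine ⟨Y, 27 * M, 27 * (e ^ m * (a m * a m) : ℕ), b, S, ?_, by positivity, hb, ?_, ?_, ?_,
      fun K' F hS => ?_⟩
    · have : (0 : ℝ) < M := by exact_mod_cast hM1
      positivity
    · exact g1
    · rw [mul_div_mul_left _ _ (by norm_num)]
      exact g2
    · exact g3
    · obtain ⟨c₁, hc₁⟩ := hkey K' F hS
      refine ⟨c₁, fun y hy hyb => ?_⟩
      obtain ⟨ev, hev, h1⟩ := hc₁ y hy hyb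
      refine ⟨ev, hev, ?_⟩
      linarith

end Pool.Agent.H8.TD
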