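import Pool.Agent.H8.ZA.Targets
import Pool.Agent.H18.HIT.Targets

/-!
# Zariski dense orbits in dimension three: definitions
-/

open MvPolynomial
open Pool.Agent.H12.ZD (pmap v O Res DenseOrbit NoInv)
open Pool.Agent.H18.HIT
open Pool.Agent.H8.ZA (HFam Const NA sz)

namespace Pool.Agent.H8.TD

/-- a linear combination -/
noncomputable def lc {k M : Type} [CommRing k] [AddCommGroup M] [Module k M] {a : ℕ}
    (s : Fin a → k) (φ : Fin a → M) : M := ∑ i, s i • φ i

/-- the degree of `K` over the field generated by `S` (zero if it is infinite) -/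
noncomputable def dg (k : Type) {K : Type} [Field k] [Field K] [Algebra k K] (S : Set K) : ℕ :=
  Module.finrank (IntermediateField.adjoin k S) K

/-- the space spanned by the products `φ ^ α * ψ ^ β`, `|α| ≤ n`, `|β| ≤ l` -/
noncomputable def Wsp (κ : Type) {C : Type} [CommRing κ] [CommRing C] [Algebra κ C] {a b : ℕ}
    (φ : Fin a → C) (ψ : Fin b → C) (n l : ℕ) : Submodule κ C :=
  Submodule.span κ {q | ∃ (α : Fin a → ℕ) (β : Fin b → ℕ), ∑ i, α i ≤ n ∧ ∑ i, β i ≤ l ∧
    q = (∏ i, φ i ^ α i) * ∏ i, ψ i ^ β i}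

/-- the ring generated by the functions `φ` and `ψ` -/
noncomputable def Rg (κ : Type) {C : Type} [CommRing κ] [CommRing C] [Algebra κ C] {a b : ℕ}
    (φ : Fin a → C) (ψ : Fin b → C) : Subalgebra κ C :=
  Algebra.adjoin κ (Set.range φ ∪ Set.range ψ)

/-- `M` bounds the intersection numbers of three linear systems -/
def Bd (k : Type) {K : Type} [Field k] [Field K] [Algebra k K] (α β γ : Fin 3 → K) (M : ℕ) :
    Prop := ∀ s s' s'' : Fin 3 → k, dg k {lc s α, lc s' β, lc s'' γ} ≤ M

/-- the field of rational functions of affine 3-space -/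
abbrev K3 (k : Type) [Field k] : Type := FractionRing (Po 3 k)

section three

variable {k : Type} [Field k]

/-- the coordinates -/
noncomputable def xx (k : Type) [Field k] (i : Fin 3) : K3 k :=
  algebraMap (Po 3 k) (K3 k) (X i)

/-- the coordinates of the `n`-th iterate -/
noncomputable def ph (τ : K3 k →ₐ[k] K3 k) (n : ℕ) : Fin 3 → K3 k := fun i => τ^[n] (xx k i)

/-- dehomogenization -/
noncomputable def dh : Po 4 k →ₐ[k] Po 3 k :=
  aeval (Fin.cons 1 (fun i : Fin 3 => X i) : Fin 4 → Po 3 k)

/-- a quotient of two forms as a rational function on affine space -/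
noncomputable def qt (P Q : Po 4 k) : K3 k :=
  algebraMap (Po 3 k) (K3 k) (dh P) / algebraMap (Po 3 k) (K3 k) (dh Q)

/-- the affine coordinates of a point -/
noncomputable def aff (y : Fin 4 → k) : Fin 3 → k := fun i => y i.succ / y 0

/-- the polynomials have no common factor -/
def Cop {N M : ℕ} (G : Fin M → Po N k) : Prop := ∀ P : Po N k, Irreducible P → ∃ i, ¬ P ∣ G i

end three

/-- growth condition, first kind -/
def GI (e d D M m : ℕ) : Prop := 54 * d * e ^ m < D ∧ 5832 * M * d ≤ D ^ 2

/-- growth condition, second kind -/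
def GII (e d M Y m : ℕ) : Prop := 54 * M * e ^ m < Y ∧ 5832 * (e ^ m * (d * d)) * M ≤ Y ^ 2

end Pool.Agent.H8.TD
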