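import Pool.Agent.H8.TD.Basic

/-!
# Zariski dense orbits in dimension three: the field of rational functions
-/

set_option autoImplicit false

open MvPolynomial
open Pool.Agent.H18.HIT

namespace Pool.Agent.H8.TD

section field

variable (k : Type) [Field k]

theorem tb_xx : IsTranscendenceBasis k (xx k) :=
  haveI : Algebra.IsAlgebraic (Po 3 k) (K3 k) :=
    IsLocalization.isAlgebraic (K3 k) (nonZeroDivisors (Po 3 k))
  (IsTranscendenceBasis.mvPolynomial (Fin 3) k).algebraMap_comp (A := K3 k)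

theorem trdeg_K3 : Algebra.trdeg k (K3 k) = 3 := by
  rw [← (tb_xx k).cardinalMk_eq_trdeg]
  simp

theorem adjoin_xx : IntermediateField.adjoin k (Set.range (xx k)) = ⊤ := by
  rw [eq_top_iff]
  rintro x -
  obtain ⟨p, q, hq, rfl⟩ := IsFractionRing.div_surjective (A := Po 3 k) x
  have h : ∀ p : Po 3 k, algebraMap (Po 3 k) (K3 k) p ∈
      IntermediateField.adjoin k (Set.range (xx k)) := by
    intro p
    induction p using MvPolynomial.induction_on with
    | C a =>
      have h1 : algebraMap (Po 3 k) (K3 k) (C a) = algebraMap k (K3 k) a := by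
        rw [IsScalarTower.algebraMap_apply k (Po 3 k) (K3 k)]
        rfl
      rw [h1]
      exact IntermediateField.algebraMap_mem _ a
    | add p q hp hq =>
      rw [map_add]
      exact add_mem hp hq
    | mul_X p i hp =>
      rw [map_mul]
      exact mul_mem hp (IntermediateField.subset_adjoin k _ ⟨i, rfl⟩)
  exact div_mem (h p) (h q)

theorem fg_K3 : (⊤ : IntermediateField k (K3 k)).FG :=
  IntermediateField.fg_def.2 ⟨Set.range (xx k), Set.finite_range _, adjoin_xx k⟩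

variable {k}

theorem ph_zero (τ : K3 k →ₐ[k] K3 k) : ph τ 0 = xx k := rfl

theorem ph_add (τ : K3 k →ₐ[k] K3 k) (m n : ℕ) (i : Fin 3) : τ^[m] (ph τ n i) = ph τ (m + n) i := by
  rw [ph, ← Function.iterate_add_apply]
  rfl

theorem iter_algHom (τ : K3 k →ₐ[k] K3 k) (n : ℕ) : ∃ f : K3 k →ₐ[k] K3 k, ⇑f = τ^[n] := by
  induction n with
  | zero => exact ⟨AlgHom.id k _, rfl⟩
  | succ n ih =>
    obtain ⟨f, hf⟩ := ih
    refine ⟨f.comp τ, ?_⟩
    rw [Function.iterate_succ, ← hf]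
    rfl

theorem ai_ph (τ : K3 k →ₐ[k] K3 k) (n : ℕ) : AlgebraicIndependent k (ph τ n) := by
  obtain ⟨f, hf⟩ := iter_algHom τ n
  have h1 : ph τ n = f ∘ xx k := by
    funext i
    rw [Function.comp_apply, hf]
    rfl
  rw [h1]
  exact (tb_xx k).1.map' f.toRingHom.injective

theorem tb_ph (τ : K3 k →ₐ[k] K3 k) (n : ℕ) : IsTranscendenceBasis k (ph τ n) := by
  apply (ai_ph τ n).isTranscendenceBasis_of_trdeg_le_of_finite
  rw [trdeg_K3]
  simp

theorem alg_ph (τ : K3 k →ₐ[k] K3 k) (n : ℕ) :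
    Algebra.IsAlgebraic (IntermediateField.adjoin k (Set.range (ph τ n))) (K3 k) :=
  (tb_ph τ n).isAlgebraic_field

theorem tr_ph (τ : K3 k →ₐ[k] K3 k) (n : ℕ) (i : Fin 3) : Transcendental k (ph τ n i) :=
  (ai_ph τ n).transcendental i

end field

/-! ## The ring of fractions -/

section ring

variable {k : Type} [Field k]

/-- the ring of fractions with denominators powers of `q` -/
noncomputable abbrev Rq (q : Po 3 k) (hq : q ≠ 0) : Subalgebra (Po 3 k) (K3 k) :=
  Localization.subalgebra.ofField (K3 k) (Submonoid.powers q)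
    (powers_le_nonZeroDivisors_of_noZeroDivisors hq)

/-- evaluation of fractions -/
theorem exists_ev (q : Po 3 k) (hq : q ≠ 0) (y : Fin 3 → k) (hy : eval y q ≠ 0) :
    ∃ ev : Rq q hq →ₐ[k] k, ∀ p : Po 3 k, ev (algebraMap (Po 3 k) (Rq q hq) p) = eval y p := by
  have h1 : ∀ u : Submonoid.powers q, IsUnit ((aeval y : Po 3 k →ₐ[k] k) u) := by
    rintro ⟨_, n, rfl⟩
    have h2 : (aeval y : Po 3 k →ₐ[k] k) (q ^ n) = eval y q ^ n := by
      rw [map_pow]
      rfl
    rw [h2]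
    exact (pow_ne_zero n hy).isUnit
  refine ⟨IsLocalization.liftAlgHom (M := Submonoid.powers q) (S := Rq q hq) h1, fun p => ?_⟩
  rw [IsLocalization.liftAlgHom_apply, IsLocalization.lift_eq]
  rfl

/-- numerators -/
theorem exists_num (q : Po 3 k) (hq : q ≠ 0) (b : Rq q hq) (hb : b ≠ 0) :
    ∃ (p : Po 3 k) (n : ℕ), p ≠ 0 ∧ b * algebraMap (Po 3 k) (Rq q hq) (q ^ n) =
      algebraMap (Po 3 k) (Rq q hq) p := by
  obtain ⟨⟨p, ⟨_, n, rfl⟩⟩, h⟩ := IsLocalization.surj (Submonoid.powers q) b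
  refine ⟨p, n, ?_, h⟩
  rintro rfl
  rw [map_zero] at h
  have h1 : (b : K3 k) * algebraMap (Po 3 k) (K3 k) (q ^ n) = 0 := congrArg Subtype.val h
  rcases mul_eq_zero.mp h1 with h2 | h2
  · exact hb (Subtype.ext h2)
  · exact pow_ne_zero n hq ((map_eq_zero_iff _ (IsFractionRing.injective (Po 3 k) (K3 k))).1 h2)

/-- fractions with a denominator dividing `q` -/
theorem exists_frac (q : Po 3 k) (hq : q ≠ 0) (s r : Po 3 k) (hs : s ∣ q) :
    ∃ x : Rq q hq, (x : K3 k) = algebraMap (Po 3 k) (K3 k) r / algebraMap (Po 3 k) (K3 k) s ∧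
      x * algebraMap (Po 3 k) (Rq q hq) s = algebraMap (Po 3 k) (Rq q hq) r := by
  obtain ⟨u, rfl⟩ := hs
  have hs0 : algebraMap (Po 3 k) (K3 k) s ≠ 0 := fun h =>
    left_ne_zero_of_mul hq ((map_eq_zero_iff _ (IsFractionRing.injective (Po 3 k) (K3 k))).1 h)
  have hu0 : algebraMap (Po 3 k) (K3 k) u ≠ 0 := fun h =>
    right_ne_zero_of_mul hq ((map_eq_zero_iff _ (IsFractionRing.injective (Po 3 k) (K3 k))).1 h)
  refine ⟨⟨algebraMap (Po 3 k) (K3 k) r / algebraMap (Po 3 k) (K3 k) s,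
    ⟨r * u, s * u, ⟨1, pow_one _⟩, ?_⟩⟩, rfl, ?_⟩
  · rw [map_mul, map_mul, ← div_eq_mul_inv, mul_div_mul_right _ _ hu0]
  · apply Subtype.ext
    exact div_mul_cancel₀ _ hs0

/-- the ring of fractions with denominators powers of `q` -/
theorem exists_ring (q : Po 3 k) (hq : q ≠ 0) : ∃ (R : Type) (_ : CommRing R) (_ : IsDomain R)
    (_ : Algebra k R) (_ : Algebra (Po 3 k) R) (_ : Algebra R (K3 k))
    (_ : IsScalarTower k R (K3 k)), Function.Injective (algebraMap R (K3 k)) ∧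
    (∀ p : Po 3 k, algebraMap R (K3 k) (algebraMap (Po 3 k) R p) =
      algebraMap (Po 3 k) (K3 k) p) ∧
    (∀ y : Fin 3 → k, eval y q ≠ 0 → ∃ ev : R →ₐ[k] k,
      ∀ p : Po 3 k, ev (algebraMap (Po 3 k) R p) = eval y p) ∧
    (∀ b : R, b ≠ 0 → ∃ (p : Po 3 k) (n : ℕ), p ≠ 0 ∧
      b * algebraMap (Po 3 k) R (q ^ n) = algebraMap (Po 3 k) R p) ∧
    ∀ s r : Po 3 k, s ∣ q → ∃ x : R, algebraMap R (K3 k) x =
      algebraMap (Po 3 k) (K3 k) r / algebraMap (Po 3 k) (K3 k) s ∧
      x * algebraMap (Po 3 k) R s = algebraMap (Po 3 k) R r :=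
  ⟨Rq q hq, inferInstance, inferInstance, inferInstance, inferInstance, inferInstance,
    inferInstance, Subtype.val_injective, fun _ => rfl, exists_ev q hq, exists_num q hq,
    exists_frac q hq⟩

end ring

end Pool.Agent.H8.TD
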