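import Pool.Agent.H8.TD.All

/-!
# Zariski dense orbits in dimension three: slow growth along a curve
-/

set_option autoImplicit false

open MvPolynomial
open Pool.Agent.H18.HIT
open Pool.Agent.H12.ZD (pmap)
open Pool.Agent.H8.ZA (HFam Const NA sz)

namespace Pool.Agent.H8.TD

/-- slow growth of the heights along an orbit in a totally invariant curve -/
theorem slow (K : IntermediateField ℚ Qb) (F : HFam K) (T : Tup 4 Qb) (D e : ℕ) (hD : 1 ≤ D)
    (hT : ∀ i, (T i).IsHomogeneous D) (y : Fin 4 → Qb) (θ : Po 4 Qb) (Φ : Polynomial (Po 4 Qb))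
    (Δ : Po 4 Qb) (R : Fin 4 → Polynomial (Po 4 Qb)) (hprim : Prim T θ Φ Δ R)
    (hdeg : Φ.natDegree ≤ D * e) (hprime : (van T y).IsPrime)
    (hhom : ∀ q ∈ van T y, ∀ m, homogeneousComponent m q ∈ van T y)
    (hiff : ∀ q, aeval T q ∈ van T y ↔ q ∈ van T y) (hΔ : Δ ∉ van T y) (S S' : Po 4 Qb)
    (hS : S ∈ van T y) (hS' : S' ∈ van T y) (hS0 : S ≠ 0) (hS0' : S' ≠ 0)
    (hrel : IsRelPrime S S') (hK : ∀ l s, (pmap T)^[l] y s ∈ K)
    (h0 : ∀ l, (pmap T)^[l] y 0 ≠ 0) :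
    ∃ M : ℕ, ∀ n : ℕ, ∃ c : ℝ, ∀ l, F.ht (aff ((pmap T)^[n + l] y)) ≤
      M * (e : ℝ) ^ n * F.ht (aff ((pmap T)^[l] y)) + c := by
  by_cases hc : ∃ j : Fin 4, ∀ c : Qb, ∃ l, (pmap T)^[l] y j ≠ c * (pmap T)^[l] y 0
  · obtain ⟨j, hj⟩ := hc
    obtain ⟨j', rfl⟩ : ∃ j' : Fin 3, j = j'.succ := by
      have hj0 : j ≠ 0 := by
        rintro rfl
        obtain ⟨l, hl⟩ := hj 1
        exact hl (one_mul _).symm
      exact ⟨j.pred hj0, (Fin.succ_pred j hj0).symm⟩
    have hX : X 0 ∉ van T y := by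
      intro h
      have h1 := h 0
      rw [eval_X] at h1
      exact h0 0 h1
    choose M hM using fun i : Fin 3 => Al.rl1 Qb (van T y) T D e θ Φ Δ R S S' hprime hD hT hhom hX
      hiff hprim hΔ hdeg hS hS' hS0 hS0' hrel i.succ j'.succ
    refine ⟨M 0 + M 1 + M 2, fun n => ?_⟩
    have hkey : ∀ i : Fin 3, ∃ c : ℝ, ∀ l, F.ht ![aff ((pmap T)^[n + l] y) i, 0, 0] ≤
        M i * (e : ℝ) ^ n * F.ht (aff ((pmap T)^[l] y)) + c := by
      intro i
      obtain ⟨G, hG0, hGdeg, hG⟩ := hM i n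
      obtain ⟨G', hG'K, hG'deg, hG'cop, hG'⟩ := Al.rl2 K T y n (M i * e ^ n) i.succ j'.succ G hK h0
        hprime hj hG0 hGdeg (fun l => by
          have h1 := hG ((pmap T)^[l] y) (fun q hq => hq l) (h0 l) (by
            rw [← Function.iterate_add_apply]
            exact h0 _)
          rw [← Function.iterate_add_apply] at h1
          exact h1)
      obtain ⟨c, hc⟩ := Al.hrl G' (M i * e ^ n) K F hG'K hG'deg hG'cop
      refine ⟨c, fun l => ?_⟩
      have h1 := hc ((pmap T)^[l] y j'.succ / (pmap T)^[l] y 0) ((pmap T)^[n + l] y i.succ /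
        (pmap T)^[n + l] y 0) (div_mem (hK _ _) (hK _ _)) (hG' l)
      have h2 := ht_coord F (aff ((pmap T)^[l] y)) j'
      have h3 : ((M i * e ^ n : ℕ) : ℝ) = M i * (e : ℝ) ^ n := by push_cast; ring
      rw [h3] at h1
      refine h1.trans ?_
      have h4 : (0 : ℝ) ≤ M i * (e : ℝ) ^ n := by positivity
      have h5 := mul_le_mul_of_nonneg_left h2 h4
      exact add_le_add h5 le_rfl
    choose c hc using hkey
    refine ⟨c 0 + c 1 + c 2, fun l => ?_⟩
    have h1 := ht_le_sum F (aff ((pmap T)^[n + l] y))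
    have h2 := hc 0 l
    have h3 := hc 1 l
    have h4 := hc 2 l
    push_cast
    calc F.ht (aff ((pmap T)^[n + l] y)) ≤ _ := h1
      _ ≤ _ := by linarith
  · push Not at hc
    choose c hc using hc
    refine ⟨0, fun n => ⟨F.ht (fun i => c i.succ), fun l => ?_⟩⟩
    have h1 : aff ((pmap T)^[n + l] y) = fun i => c i.succ := by
      funext i
      rw [aff, hc i.succ (n + l), mul_div_cancel_right₀ _ (h0 _)]
    rw [h1, Nat.cast_zero, zero_mul, zero_mul, zero_add]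

end Pool.Agent.H8.TD
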