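import Pool.Agent.H8.TD.Rec3
import Pool.Agent.H8.TD.Slow
import Pool.Agent.H8.TD.Line2
import Pool.Agent.H8.ZA.All

/-!
# Zariski dense orbits in dimension three: the core
-/

set_option autoImplicit false

open MvPolynomial
open Pool.Agent.H12.ZD (pmap v O Res DenseOrbit NoInv)
open Pool.Agent.H18.HIT Pool.Agent.H8.HIT
open Pool.Agent.H20.HIT (hom_eval)
open Pool.Agent.H8.P2 (Lp Lm pmap_Lp Lp_ne Lm_ne Lp_Lm Lm_Lp comp_Lm_Lp comp_Lp_Lm comp_conj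
  mem_vanT prime_conj star_conj tot_conj star tot cone iter_conj)
open Pool.Agent.H8.ZA (HFam Const NA sz)

namespace Pool.Agent.H8.TD

/-- the reduced iterates of a homogeneous map with a bound for the number of preimages -/
theorem exists_data (F : Tup 4 Qb) {d : ℕ} (hd : 1 ≤ d) (hF : ∀ i, (F i).IsHomogeneous d)
    (hinjF : Function.Injective (aeval F : Po 4 Qb →ₐ[Qb] Po 4 Qb)) (e : ℕ)
    (hpre : ∃ c : Po 4 Qb, c ≠ 0 ∧ ∀ y : Fin 4 → Qb, eval y c ≠ 0 →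
      ∀ S : Finset (Fin 4 → Qb), (∀ x ∈ S, pmap F x = y) →
      (∀ x ∈ S, ∀ x' ∈ S, ∀ t : Qb, (∀ i, x' i = t * x i) → x' = x) → S.card ≤ e) :
    ∃ (τ : K3 Qb →ₐ[Qb] K3 Qb) (G : ℕ → Tup 4 Qb) (a : ℕ → ℕ), Data τ G a e ∧
      ∀ n, ∃ h : Po 4 Qb, ∀ i, it F n i = h * G n i := by
  obtain ⟨θ₁, Φ₁, Δ₁, R₁, hprim₁⟩ := All.pel _ Qb F hinjF
  obtain ⟨G, a, hGhom, hGcop, hGfac, ha, hsub⟩ := Al.red Qb F d hd hF hinjF
  obtain ⟨τ, hτ⟩ := Al.tau Qb F d hd hF hinjF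
  have hΦ₁ : Φ₁.natDegree ≤ d ^ 1 * e ^ 1 := Al.upe 4 Qb F d e 1 θ₁ Φ₁ Δ₁ R₁ (by norm_num) hd hF
    hinjF hpre (by rw [it_one]; exact hprim₁)
  rw [pow_one, pow_one] at hΦ₁
  have hdeg : Module.finrank τ.fieldRange (K3 Qb) ≤ e :=
    Al.dgb Qb F d e τ θ₁ Φ₁ Δ₁ R₁ hd hF hinjF hprim₁ hΦ₁ (fun i => by
      have h1 := (hτ 1).2 i
      rw [it_one] at h1
      exact h1)
  have hdh : ∀ n (h : Po 4 Qb), (∀ i, it F n i = h * G n i) → dh h ≠ 0 ∧ dh (G n 0) ≠ 0 := by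
    intro n h hh
    have h1 := (hτ n).1
    rw [hh 0, map_mul] at h1
    exact ⟨left_ne_zero_of_mul h1, right_ne_zero_of_mul h1⟩
  refine ⟨τ, G, a, ⟨hGhom, hGcop, fun n => ?_, fun n i => ?_, ha, hsub, hdeg⟩, hGfac⟩
  · obtain ⟨h, hh⟩ := hGfac n
    exact (hdh n h hh).2
  · obtain ⟨h, hh⟩ := hGfac n
    rw [(hτ n).2 i, hh, hh, qt, qt, map_mul, map_mul, map_mul, map_mul,
      mul_div_mul_left _ _ (algK_ne (hdh n h hh).1)]

/-- a number field containing given numbers -/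
theorem exists_K (S : Finset Qb) : ∃ K : IntermediateField ℚ Qb, FiniteDimensional ℚ K ∧
    ∀ x ∈ S, x ∈ K := by
  refine ⟨IntermediateField.adjoin ℚ (S : Set Qb), ?_, fun x hx =>
    IntermediateField.subset_adjoin ℚ _ hx⟩
  exact IntermediateField.finiteDimensional_adjoin fun x _ =>
    (Algebra.IsAlgebraic.isAlgebraic (R := ℚ) x).isIntegral

theorem coeff_mem {K : IntermediateField ℚ Qb} (p : Polynomial Qb) (h : ∀ x ∈ p.coeffs, x ∈ K)
    (j : ℕ) : p.coeff j ∈ K := by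
  by_cases hj : p.coeff j = 0
  · rw [hj]
    exact zero_mem K
  · exact h _ (Polynomial.coeff_mem_coeffs hj)

theorem orbit_mem {K : IntermediateField ℚ Qb} (F : Tup 4 Qb) (hF : ∀ i, ∀ c ∈ (F i).coeffs, c ∈ K)
    (x : Fin 4 → Qb) (hx : ∀ i, x i ∈ K) (n : ℕ) (i : Fin 4) : (pmap F)^[n] x i ∈ K := by
  induction n generalizing i with
  | zero => exact hx i
  | succ n ih =>
    rw [Function.iterate_succ_apply']
    exact eval_mem (F i) _ (hF i) ih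

/-- affine coordinates of proportional points -/
theorem aff_smul {c : Qb} (hc : c ≠ 0) (y : Fin 4 → Qb) : aff (fun i => c * y i) = aff y := by
  funext i
  exact mul_div_mul_left _ _ hc

end Pool.Agent.H8.TD
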