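import Pool.Agent.H8.TD.Targets
import Pool.Agent.H21.HIT.BER

/-!
# Bertini's theorem for lines with a general direction
-/

set_option autoImplicit false

open MvPolynomial
open Pool.Agent.H12.ZD (pmap v O Res DenseOrbit NoInv)
open Pool.Agent.H18.HIT Pool.Agent.H21.HIT

namespace Pool.Agent.H8.TD

theorem pf_BRX (hSEP : T_SEP) (hHEN : T_HEN) (hMFP : T_MFP) (hDFB : T_DFB) : T_BRX := by
  classical
  intro N Φ c hΦ hirr hc
  obtain ⟨U, V, ρ, hρ, hUV⟩ := hSEP (Po N Qb) Φ hΦ hirr
  obtain ⟨y, hy⟩ := int_point (ρ * c) (mul_ne_zero hρ hc)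
  rw [map_mul] at hy
  have hyρ : eval (cZ y) ρ ≠ 0 := left_ne_zero_of_mul hy
  have hyc : eval (cZ y) c ≠ 0 := right_ne_zero_of_mul hy
  obtain ⟨E, hE⟩ : ∃ E, Φ.natDegree = E := ⟨_, rfl⟩
  have hE1 : 1 ≤ E := by
    by_contra hlt
    have h1 : Φ.natDegree = 0 := by omega
    have h2 : Φ = 1 := Polynomial.eq_one_of_monic_natDegree_zero hΦ h1
    exact hirr.not_isUnit (h2 ▸ isUnit_one)
  obtain ⟨T, hT⟩ := ber_T hHEN Φ hΦ U V ρ y hyρ hUV E hE
  -- degrees
  obtain ⟨c₀, hc₀⟩ : ∃ c₀ : ℕ, c₀ = ∑ j ∈ Finset.range E, (gl y (Φ.coeff j)).natDegree := ⟨_, rfl⟩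
  -- the nonvanishing coefficients
  have hcl : ∀ J : Finset (Fin E), ∃ (q : Po N Qb) (j i : ℕ), q ≠ 0 ∧ (J.Nonempty →
      J ≠ Finset.univ → c₀ * E < i ∧
      PowerSeries.coeff i ((∏ a ∈ J, (Polynomial.X - Polynomial.C (T a))).coeff j) = q) := by
    intro J
    by_cases h1 : J.Nonempty
    · by_cases h2 : J ≠ Finset.univ
      · obtain ⟨j, i, h3, h4⟩ := ber_claim Φ hΦ hirr y E hE T hT J h1 h2 (c₀ * E)
        exact ⟨_, j, i, h4, fun _ _ => ⟨h3, rfl⟩⟩
      · exact ⟨1, 0, 0, one_ne_zero, fun _ h => absurd h h2⟩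
    · exact ⟨1, 0, 0, one_ne_zero, fun h => absurd h h1⟩
  choose q jj ii hq hqJ using hcl
  refine ⟨y, hyc, fun c' hc' => ?_⟩
  obtain ⟨b, hb⟩ := int_point ((∏ J, q J) * c')
    (mul_ne_zero (Finset.prod_ne_zero_iff.2 fun J _ => hq J) hc')
  rw [map_mul] at hb
  have hbJ : ∀ J, eval (cZ b) (q J) ≠ 0 := by
    intro J hJ
    apply left_ne_zero_of_mul hb
    rw [map_prod]
    exact Finset.prod_eq_zero (Finset.mem_univ J) hJ
  refine ⟨b, right_ne_zero_of_mul hb, ?_⟩
  · have hPm : (Φ.map (lin y b)).Monic := hΦ.map _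
    have hPd : (Φ.map (lin y b)).natDegree = E := (hΦ.natDegree_map _).trans hE
    rw [hPm.irreducible_iff_natDegree]
    refine ⟨?_, ?_⟩
    · intro h
      rw [h, Polynomial.natDegree_one] at hPd
      omega
    · intro f g hf hg hfg
      by_contra hcon
      push Not at hcon
      obtain ⟨hf0, hg0⟩ := hcon
      have hsum : f.natDegree + g.natDegree = E := by
        rw [← hPd, ← hfg, hf.natDegree_mul hg]
      -- degrees of the coefficients
      have hdeg : ∀ j, (f.coeff j).natDegree ≤ c₀ * E := by
        intro j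
        have h1 := hDFB Qb f g c₀ hf hg (by
          intro j
          rw [hfg, hPd, Polynomial.coeff_map, ← gl_spec, RingHom.comp_apply,
            Polynomial.coe_mapRingHom]
          rcases lt_trichotomy j E with h2 | h2 | h2
          · refine (Polynomial.natDegree_map_le).trans ?_
            have h3 : (gl y (Φ.coeff j)).natDegree ≤ c₀ := by
              rw [hc₀]
              exact Finset.single_le_sum (f := fun j => (gl y (Φ.coeff j)).natDegree)
                (fun _ _ => Nat.zero_le _) (Finset.mem_range.2 h2)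
            refine h3.trans (Nat.le_mul_of_pos_right _ (by omega))
          · have h3 : Φ.coeff j = 1 := by
              rw [h2, ← hE]
              exact hΦ
            rw [h3, map_one, Polynomial.map_one, Polynomial.natDegree_one]
            exact Nat.zero_le _
          · have h3 : Φ.coeff j = 0 := Polynomial.coeff_eq_zero_of_natDegree_lt (by omega)
            rw [h3, map_zero, Polynomial.map_zero, Polynomial.natDegree_zero]
            exact Nat.zero_le _) j
        refine h1.trans (Nat.mul_le_mul_left _ ?_)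
        omega
      obtain ⟨κ, hκ⟩ : ∃ κ : Polynomial Qb →+* PowerSeries Qb,
        κ = Polynomial.coeToPowerSeries.ringHom := ⟨_, rfl⟩
      have hκa : ∀ q, κ q = (q : PowerSeries Qb) := by
        intro q
        rw [hκ]
        rfl
      have hprod : (Φ.map (lin y b)).map κ =
          ∏ a, (Polynomial.X - Polynomial.C (PowerSeries.map (eval (cZ b)) (T a))) := by
        have h1 : κ.comp (lin y b) = ((PowerSeries.map (eval (cZ b))).comp
            (Polynomial.coeToPowerSeries.ringHom)).comp (gl y) := by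
          rw [← gl_spec]
          apply RingHom.ext
          intro q
          rw [RingHom.comp_apply, RingHom.comp_apply, RingHom.comp_apply, RingHom.comp_apply,
            hκa, Polynomial.coe_mapRingHom, Polynomial.coeToPowerSeries.ringHom_apply, coe_map]
        rw [Polynomial.map_map, h1, ← Polynomial.map_map, ← Polynomial.map_map]
        rw [hT, Polynomial.map_prod]
        refine Finset.prod_congr rfl fun a _ => ?_
        rw [Polynomial.map_sub, Polynomial.map_X, Polynomial.map_C]
      obtain ⟨J, hJ⟩ := hMFP (PowerSeries Qb) E _ (f.map κ) (hf.map κ) (by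
        rw [← hprod, ← hfg, Polynomial.map_mul]
        exact dvd_mul_right _ _)
      have hcard : J.card = f.natDegree := by
        rw [← hf.natDegree_map κ, hJ, Polynomial.natDegree_finsetProd_X_sub_C_eq_card]
      have hJ1 : J.Nonempty := by
        rw [← Finset.card_pos, hcard]
        omega
      have hJ2 : J ≠ Finset.univ := by
        intro h
        rw [h, Finset.card_univ, Fintype.card_fin] at hcard
        omega
      obtain ⟨h1, h2⟩ := hqJ J hJ1 hJ2
      apply hbJ J
      rw [← h2, ← PowerSeries.coeff_map, ← Polynomial.coeff_map, Polynomial.map_prod]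
      have h3 : ∏ a ∈ J, ((Polynomial.X - Polynomial.C (T a)).map
          (PowerSeries.map (eval (cZ b)))) = f.map κ := by
        rw [hJ]
        refine Finset.prod_congr rfl fun a _ => ?_
        rw [Polynomial.map_sub, Polynomial.map_X, Polynomial.map_C]
      rw [h3, Polynomial.coeff_map, hκa, Polynomial.coeff_coe]
      exact Polynomial.coeff_eq_zero_of_natDegree_lt (lt_of_le_of_lt (hdeg _) h1)

end Pool.Agent.H8.TD
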