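import Pool.Agent.H8.TD.All

/-!
# Zariski dense orbits in dimension three: the intersection numbers of the iterates
-/

set_option autoImplicit false

open MvPolynomial
open Pool.Agent.H18.HIT

namespace Pool.Agent.H8.TD

/-- the reduced iterates and the action on rational functions -/
structure Data (τ : K3 Qb →ₐ[Qb] K3 Qb) (G : ℕ → Tup 4 Qb) (a : ℕ → ℕ) (e : ℕ) : Prop where
  hom : ∀ n i, (G n i).IsHomogeneous (a n)
  cop : ∀ n, Cop (G n)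
  ne : ∀ n, dh (G n 0) ≠ 0
  eq : ∀ n i, ph τ n i = qt (G n i.succ) (G n 0)
  pos : ∀ n, 1 ≤ a n
  sub : ∀ m n, a (m + n) ≤ a m * a n
  deg : Module.finrank τ.fieldRange (K3 Qb) ≤ e

theorem algK_ne {p : Po 3 Qb} (hp : p ≠ 0) : algebraMap (Po 3 Qb) (K3 Qb) p ≠ 0 := fun h =>
  hp ((map_eq_zero_iff _ (IsFractionRing.injective (Po 3 Qb) (K3 Qb))).1 h)

variable {τ : K3 Qb →ₐ[Qb] K3 Qb} {G : ℕ → Tup 4 Qb} {a : ℕ → ℕ} {e : ℕ}

theorem Data.ins (h : Data τ G a e) (m n Y : ℕ) (β γ : Fin 3 → K3 Qb)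
    (hY : Bd Qb (ph τ m) β γ Y) : Bd Qb (ph τ (m + n)) β γ (a n * Y) := by
  apply Al.ins Qb τ (fun i => dh (G n i)) (a n) m n Y β γ _ (h.ne n) _ hY
  · intro i
    exact (totalDegree_dh_le _).trans (h.hom n i).totalDegree_le
  · intro i
    rw [h.eq, qt]
    exact div_mul_cancel₀ _ (algK_ne (h.ne n))

theorem Data.b2 (h : Data τ G a e) (n : ℕ) : Bd Qb (ph τ n) (xx Qb) (xx Qb) (a n) := by
  have h1 := h.ins 0 n 1 (xx Qb) (xx Qb) (by rw [ph_zero]; exact Al.bz1 Qb)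
  rwa [Nat.zero_add, Nat.mul_one] at h1

theorem Data.b3 (h : Data τ G a e) (n l : ℕ) : Bd Qb (ph τ n) (ph τ l) (xx Qb) (a n * a l) := by
  have h1 := h.ins 0 n (a l) (ph τ l) (xx Qb) (by rw [ph_zero]; exact (h.b2 l).swap)
  rwa [Nat.zero_add] at h1

theorem Data.pbk (h : Data τ G a e) (n : ℕ) {α β γ : Fin 3 → K3 Qb} {B : ℕ}
    (hB : Bd Qb α β γ B) : Bd Qb (fun i => τ^[n] (α i)) (fun i => τ^[n] (β i))
      (fun i => τ^[n] (γ i)) (e ^ n * B) := by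
  intro s s' s''
  have h1 : ({lc s (fun i => τ^[n] (α i)), lc s' (fun i => τ^[n] (β i)),
      lc s'' (fun i => τ^[n] (γ i))} : Set (K3 Qb)) =
      τ^[n] '' {lc s α, lc s' β, lc s'' γ} := by
    rw [Set.image_insert_eq, Set.image_pair, lc_iterate, lc_iterate, lc_iterate]
  rw [h1, Al.pbk Qb (K3 Qb) τ n]
  exact Nat.mul_le_mul (Nat.pow_le_pow_left h.deg n) (hB s s' s'')

theorem Data.b4 (h : Data τ G a e) (m : ℕ) :
    Bd Qb (ph τ m) (ph τ (m + m)) (ph τ (m + m)) (e ^ m * (a m * a m)) := by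
  have h1 : Bd Qb (xx Qb) (ph τ m) (ph τ m) (a m * a m) := (h.b3 m m).rot.swap
  have h2 := h.pbk m h1
  have h3 : (fun i => τ^[m] (ph τ m i)) = ph τ (m + m) := funext fun i => ph_add τ m m i
  rw [h3] at h2
  exact h2

theorem Data.b5 (h : Data τ G a e) (n : ℕ) : ∃ s s' s'' : Fin 3 → Qb,
    a n ≤ dg Qb {lc s (ph τ n), lc s' (xx Qb), lc s'' (xx Qb)} := by
  have h0 : G n 0 ≠ 0 := by
    intro h0
    apply h.ne n
    rw [h0, map_zero]
  obtain ⟨s, s', s'', h1⟩ := Al.ldg Qb (G n) (a n) (h.pos n) (h.hom n) (h.cop n) h0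
  have h2 : (fun i : Fin 3 => qt (G n i.succ) (G n 0)) = ph τ n :=
    funext fun i => (h.eq n i).symm
  rw [h2] at h1
  exact ⟨s, s', s'', h1⟩

/-- the numbers at a good scale -/
theorem Data.numbers (h : Data τ G a e) (he : 1 ≤ e) (c : ℝ) (hec : (e : ℝ) < c)
    (hgrow : ∀ N, ∃ n ≥ N, c ^ n ≤ (a n : ℝ)) : ∃ (m M Y : ℕ), 1 ≤ m ∧
      Bd Qb (ph τ m) (ph τ (m + m)) (xx Qb) M ∧
      (∃ s s' s'' : Fin 3 → Qb,
        dg Qb {lc s (ph τ (m + m)), lc s' (ph τ (m + m)), lc s'' (xx Qb)} = Y) ∧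
      Y ≤ a m * M ∧ (GI e (a m) (a (m + m)) M m ∨ GII e (a m) M Y m) := by
  choose Y _ hY1 hY2 using fun m => exists_max (h.b3 m m)
  choose M hM hM1 hM2 using fun m => exists_max (h.b3 m (m + m))
  have h1 : ∀ m, M m ≤ a m * Y m := by
    intro m
    obtain ⟨s, s', s'', h2⟩ := hM2 m
    rw [← h2]
    exact (h.ins m m _ _ _ (hY1 m)).swap s s' s''
  have h3 : ∀ m, Y (m + m) ≤ a m * M m := by
    intro m
    obtain ⟨s, s', s'', h2⟩ := hY2 (m + m)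
    rw [← h2]
    exact h.ins m m _ _ _ (hM1 m) s s' s''
  obtain ⟨m, hm, hgood⟩ := Al.gr3 a Y M e c h.pos h.sub he hec hgrow h1 hM
  exact ⟨m, M m, Y (m + m), hm, hM1 m, hY2 (m + m), h3 m, hgood⟩

theorem GI.real {d D M m : ℕ} (hd : 1 ≤ d) (hD : D ≤ d * d) (h : GI e d D M m) :
    2 * (e : ℝ) ^ m < (D : ℝ) / (27 * d) ∧ 8 * ((M : ℝ) / d) ≤ ((D : ℝ) / (27 * d)) ^ 2 ∧
      27 * ((D : ℝ) / (27 * d)) ≤ d := by
  obtain ⟨h1, h2⟩ := h
  have hd' : (0 : ℝ) < d := by exact_mod_cast hd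
  have h1' : 54 * (d : ℝ) * (e : ℝ) ^ m < D := by exact_mod_cast h1
  have h2' : 5832 * (M : ℝ) * d ≤ (D : ℝ) ^ 2 := by exact_mod_cast h2
  have hD' : (D : ℝ) ≤ d * d := by exact_mod_cast hD
  refine ⟨?_, ?_, ?_⟩
  · rw [lt_div_iff₀ (by positivity)]
    linarith
  · rw [div_pow, le_div_iff₀ (by positivity)]
    have h3 : 8 * ((M : ℝ) / d) * (27 * (d : ℝ)) ^ 2 = 5832 * (M : ℝ) * d := by
      field_simp
      ring
    rw [h3]
    exact h2'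
  · have h3 : 27 * ((D : ℝ) / (27 * d)) = D / d := by
      field_simp
    rw [h3, div_le_iff₀ hd']
    exact hD'

theorem GII.real {d M Y m : ℕ} (hM : 1 ≤ M) (hY : Y ≤ d * M) (h : GII e d M Y m) :
    2 * (e : ℝ) ^ m < (Y : ℝ) / (27 * M) ∧
      8 * (((e ^ m * (d * d) : ℕ) : ℝ) / M) ≤ ((Y : ℝ) / (27 * M)) ^ 2 ∧
      27 * ((Y : ℝ) / (27 * M)) ≤ d := by
  obtain ⟨h1, h2⟩ := h
  have hd' : (0 : ℝ) < M := by exact_mod_cast hM
  have h1' : 54 * (M : ℝ) * (e : ℝ) ^ m < Y := by exact_mod_cast h1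
  have h2' : 5832 * (((e ^ m * (d * d) : ℕ)) : ℝ) * M ≤ (Y : ℝ) ^ 2 := by exact_mod_cast h2
  have hD' : (Y : ℝ) ≤ d * M := by exact_mod_cast hY
  refine ⟨?_, ?_, ?_⟩
  · rw [lt_div_iff₀ (by positivity)]
    linarith
  · rw [div_pow, le_div_iff₀ (by positivity)]
    have h3 : 8 * ((((e ^ m * (d * d) : ℕ)) : ℝ) / M) * (27 * (M : ℝ)) ^ 2 =
        5832 * (((e ^ m * (d * d) : ℕ)) : ℝ) * M := by
      field_simp
      ring
    rw [h3]
    exact h2'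
  · have h3 : 27 * ((Y : ℝ) / (27 * M)) = Y / M := by
      field_simp
    rw [h3, div_le_iff₀ hd']
    exact hD'

end Pool.Agent.H8.TD
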